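import Pool.Agent.Lib.MP_4eed4e_an_RG.GDefs

/-!
MP_4eed4e_an, project R, block G: exchange of the coordinates.

PROOFS. `swp D` is the preimage of `D` under the homeomorphism `Prod.swap`
(`Homeomorph.prodComm`), which maps balls to balls (`Prod.dist_eq`, `max_comm`), preserves the
volume (`MeasureTheory.Measure.volume_preserving_prodComm` or
`MeasureTheory.Measure.measurePreserving_swap`; use the version for measurable equivalences so
that no measurability is needed, or that `D` is measurable), bounded sets, connected sets, and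
segments (it is linear).
-/

namespace Pool.Agent.MP4eed4eR.G

open Set Metric MeasureTheory

noncomputable section

variable {D : Set (ℝ × ℝ)} {s t : ℝ} {p : ℝ × ℝ}

theorem swp_swp : swp (swp D) = D := by
  ext q
  simp [swp]

theorem isOpen_swp (h : IsOpen D) : IsOpen (swp D) := by
  exact h.preimage (Homeomorph.prodComm ℝ ℝ).continuous

theorem isBounded_swp (h : Bornology.IsBounded D) : Bornology.IsBounded (swp D) := by
  rw [isBounded_iff_forall_norm_le] at h ⊢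
  obtain ⟨C, hC⟩ := h
  refine ⟨C, fun q hq => ?_⟩
  have h1 := hC _ hq
  rw [Prod.norm_def] at h1 ⊢
  rwa [max_comm]

theorem frontier_swp : p ∈ frontier (swp D) ↔ (p.2, p.1) ∈ frontier D := by
  have h := (Homeomorph.prodComm ℝ ℝ).preimage_frontier D
  have h2 : frontier (swp D) = (Homeomorph.prodComm ℝ ℝ) ⁻¹' frontier D := h.symm
  rw [h2]
  exact Iff.rfl

private theorem ball_swp {q : ℝ × ℝ} {r : ℝ} :
    q ∈ ball p r ↔ (q.2, q.1) ∈ ball (p.2, p.1) r := by
  rw [mem_ball, mem_ball, Prod.dist_eq, Prod.dist_eq, max_comm]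

private theorem loc_swp {P Q : ℝ × ℝ → Prop} (h : ∀ q : ℝ × ℝ, P q ↔ Q (q.2, q.1)) :
    (∃ r > 0, ∀ q ∈ ball p r, (q ∈ swp D ↔ P q)) ↔
      ∃ r > 0, ∀ q ∈ ball (p.2, p.1) r, (q ∈ D ↔ Q q) := by
  constructor
  · rintro ⟨r, hr, H⟩
    refine ⟨r, hr, fun q hq => ?_⟩
    have h1 := H (q.2, q.1) (ball_swp.2 hq)
    exact h1.trans (h _)
  · rintro ⟨r, hr, H⟩
    refine ⟨r, hr, fun q hq => ?_⟩
    have h1 := H (q.2, q.1) (ball_swp.1 hq)
    exact h1.trans (h q).symm

private theorem vertPt_iff : VertPt D p ↔ ∃ s, (s = 1 ∨ s = -1) ∧ VS D s p := by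
  constructor
  · rintro ⟨r, hr, s, hs, H⟩
    exact ⟨s, hs, r, hr, H⟩
  · rintro ⟨s, hs, r, hr, H⟩
    exact ⟨r, hr, s, hs, H⟩

private theorem horPt_iff : HorPt D p ↔ ∃ s, (s = 1 ∨ s = -1) ∧ HS D s p := by
  constructor
  · rintro ⟨r, hr, s, hs, H⟩
    exact ⟨s, hs, r, hr, H⟩
  · rintro ⟨s, hs, r, hr, H⟩
    exact ⟨r, hr, s, hs, H⟩

private theorem seg_swp {q x : ℝ × ℝ} (h : x ∈ segment ℝ p q) :
    ((x.2, x.1) : ℝ × ℝ) ∈ segment ℝ ((p.2, p.1) : ℝ × ℝ) (q.2, q.1) := by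
  obtain ⟨a, b, ha, hb, hab, rfl⟩ := h
  exact ⟨a, b, ha, hb, hab, rfl⟩

theorem VS_swp : VS (swp D) s p ↔ HS D s (p.2, p.1) := by
  exact loc_swp (P := fun q => 0 < s * (q.1 - p.1)) (Q := fun q => 0 < s * (q.2 - p.1))
    (fun q => Iff.rfl)

theorem HS_swp : HS (swp D) s p ↔ VS D s (p.2, p.1) := by
  exact loc_swp (P := fun q => 0 < s * (q.2 - p.2)) (Q := fun q => 0 < s * (q.1 - p.2))
    (fun q => Iff.rfl)

theorem CS_swp : CS (swp D) s t p ↔ CS D t s (p.2, p.1) := by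
  exact loc_swp (P := fun q => 0 < s * (q.1 - p.1) ∧ 0 < t * (q.2 - p.2))
    (Q := fun q => 0 < t * (q.1 - p.2) ∧ 0 < s * (q.2 - p.1)) (fun q => and_comm)

theorem US_swp : US (swp D) s t p ↔ US D t s (p.2, p.1) := by
  exact loc_swp (P := fun q => 0 < s * (q.1 - p.1) ∨ 0 < t * (q.2 - p.2))
    (Q := fun q => 0 < t * (q.1 - p.2) ∨ 0 < s * (q.2 - p.1)) (fun q => or_comm)

theorem vertPt_swp : VertPt (swp D) p ↔ HorPt D (p.2, p.1) := by
  rw [vertPt_iff, horPt_iff]
  exact exists_congr fun s => and_congr_right fun _ => VS_swp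

theorem horPt_swp : HorPt (swp D) p ↔ VertPt D (p.2, p.1) := by
  rw [vertPt_iff, horPt_iff]
  exact exists_congr fun s => and_congr_right fun _ => HS_swp

theorem XC_swp : XC (swp D) = YC D := by
  ext a
  exact exists_congr fun y => vertPt_swp

theorem YC_swp : YC (swp D) = XC D := by
  ext a
  exact exists_congr fun y => horPt_swp

theorem rectDomain_swp (h : RectDomain D) : RectDomain (swp D) := by
  refine ⟨isOpen_swp h.isOpen, ?_, isBounded_swp h.isBounded, ?_⟩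
  · exact (Homeomorph.prodComm ℝ ℝ).isConnected_preimage.2 h.isConnected
  · intro p hp
    rw [frontier_swp] at hp
    rcases h.loc _ hp with h1 | h1 | h1 | h1
    · exact Or.inr (Or.inl (horPt_swp.2 h1))
    · exact Or.inl (vertPt_swp.2 h1)
    · refine Or.inr (Or.inr (Or.inl ?_))
      obtain ⟨r, hr, s, t, hs, ht, H⟩ := h1
      obtain ⟨r', hr', H'⟩ := CS_swp.2 (⟨r, hr, H⟩ : CS D s t (p.2, p.1))
      exact ⟨r', hr', t, s, ht, hs, H'⟩
    · refine Or.inr (Or.inr (Or.inr ?_))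
      obtain ⟨r, hr, s, t, hs, ht, H⟩ := h1
      obtain ⟨r', hr', H'⟩ := US_swp.2 (⟨r, hr, H⟩ : US D s t (p.2, p.1))
      exact ⟨r', hr', t, s, ht, hs, H'⟩

theorem noDiag_swp (h : NoDiag D) : NoDiag (swp D) := by
  have key : ∀ p : ℝ × ℝ, ReflexPt (swp D) p → ReflexPt D (p.2, p.1) := by
    rintro p ⟨r, hr, s, t, hs, ht, H⟩
    obtain ⟨r', hr', H'⟩ := US_swp.1 (⟨r, hr, H⟩ : US (swp D) s t p)
    exact ⟨r', hr', t, s, ht, hs, H'⟩
  intro p q hp hq hpq he hsub
  refine h _ _ (key p hp) (key q hq) (fun h1 => hpq ?_) he.symm ?_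
  · rw [Prod.mk.injEq] at h1
    exact Prod.ext h1.2 h1.1
  · rintro x ⟨a, b, ha, hb, hab, rfl⟩
    exact hsub ⟨a, b, ha, hb, hab, rfl⟩

theorem genPos_swp (h : GenPos D) : GenPos (swp D) := by
  constructor
  · intro p q hp hq he x hx
    rw [frontier_swp]
    exact h.2 _ _ (vertPt_swp.1 hp) (vertPt_swp.1 hq) he (seg_swp hx)
  · intro p q hp hq he x hx
    rw [frontier_swp]
    exact h.1 _ _ (horPt_swp.1 hp) (horPt_swp.1 hq) he (seg_swp hx)

theorem volume_swp (h : MeasurableSet D) : volume (swp D) = volume D := by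
  have h1 : MeasurePreserving (Prod.swap : ℝ × ℝ → ℝ × ℝ) volume volume := by
    exact Measure.measurePreserving_swap
  have h2 := h1.measure_preimage h.nullMeasurableSet
  exact h2

theorem wd_swp {S : Set ℝ} (h : Wd D S) : Wd (swp D) S := by
  refine ⟨h.v, ?_⟩
  rw [swp_swp]
  exact h.h

end

end Pool.Agent.MP4eed4eR.G
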