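import Pool.Agent.Lib.MP_4eed4e_an_RG.GPts
import Pool.Agent.Lib.MP_4eed4e_an_RG.GSwap

/-!
MP_4eed4e_an, project R, block G: there are finitely many lines which contain sides.

PROOFS.
* `local_XC`. Let `r` be the radius of the type of `p` (four cases, `types`) and `q ∈ ball p r`,
  `VertPt D q`, `q.1 ≠ p.1`. Near `q` the sign of `q'.1 - p.1` is constant, so for `q', q''` close
  to `q` with `q'.2 = q''.2` one has `q' ∈ D ↔ q'' ∈ D` (in each of the four types). But for `VS D
  s q` the points `(q.1 + ε, q.2)` and `(q.1 - ε, q.2)` with small `ε > 0` contradict this.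
* `finite_XC`. `frontier D` is compact (`isCompact_of_isClosed_isBounded`, the closure is bounded),
  so it is covered by finitely many of the balls of `local_XC`
  (`IsCompact.elim_nhds_subcover'` or `elim_finite_subcover`); `XC D` is contained in the set of the
  first coordinates of the centres (`VS.front`).
* `finite_YC`: exchange the coordinates (`XC_swp`, `rectDomain_swp`).
* `exists_not_mem`: a finite set of reals has dense complement.
-/

namespace Pool.Agent.MP4eed4eR.G

open Set Metric MeasureTheory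

noncomputable section

variable {D : Set (ℝ × ℝ)} {p : ℝ × ℝ}

private theorem GFin_ball {p q : ℝ × ℝ} {r : ℝ} :
    q ∈ ball p r ↔ |q.1 - p.1| < r ∧ |q.2 - p.2| < r := by
  rw [Metric.mem_ball, Prod.dist_eq, max_lt_iff, Real.dist_eq, Real.dist_eq]

private theorem GFin_aux {P : Prop → Prop → Prop} {s t r : ℝ} (hs : Sg s)
    (h : ∀ q ∈ ball p r, (q ∈ D ↔ P (0 < s * (q.1 - p.1)) (0 < t * (q.2 - p.2)))) :
    ∀ q ∈ ball p r, VertPt D q → q.1 = p.1 := by
  intro q hq hv
  by_contra hne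
  obtain ⟨s', hs', r', hr', hv'⟩ := vertPt_iff.1 hv
  have hq' := GFin_ball.1 hq
  have hpos : 0 < |q.1 - p.1| := abs_pos.2 (sub_ne_zero.2 hne)
  obtain ⟨e, he0, he1, he2, he3⟩ : ∃ e : ℝ, 0 < e ∧ e < r' ∧ e < r - |q.1 - p.1| ∧
      e < |q.1 - p.1| := by
    refine ⟨min r' (min (r - |q.1 - p.1|) |q.1 - p.1|) / 2, ?_, ?_, ?_, ?_⟩
    all_goals
      have h1 : 0 < min r' (min (r - |q.1 - p.1|) |q.1 - p.1|) :=
        lt_min hr' (lt_min (by linarith [hq'.1]) hpos)
    · linarith
    · linarith [min_le_left r' (min (r - |q.1 - p.1|) |q.1 - p.1|)]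
    · linarith [(min_le_right r' (min (r - |q.1 - p.1|) |q.1 - p.1|)).trans
        (min_le_left (r - |q.1 - p.1|) |q.1 - p.1|)]
    · linarith [(min_le_right r' (min (r - |q.1 - p.1|) |q.1 - p.1|)).trans
        (min_le_right (r - |q.1 - p.1|) |q.1 - p.1|)]
  have hb : ∀ x : ℝ, |x - q.1| ≤ e → ((x, q.2) : ℝ × ℝ) ∈ ball p r ∧
      ((x, q.2) : ℝ × ℝ) ∈ ball q r' := by
    intro x hx
    refine ⟨GFin_ball.2 ⟨?_, hq'.2⟩, GFin_ball.2 ⟨hx.trans_lt he1, ?_⟩⟩
    · have h1 : |x - p.1| ≤ |x - q.1| + |q.1 - p.1| := abs_sub_le _ _ _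
      change |x - p.1| < r
      linarith
    · change |q.2 - q.2| < r'
      rw [sub_self, abs_zero]
      exact hr'
  have h1 : |q.1 + e - q.1| ≤ e := by
    rw [add_sub_cancel_left, abs_of_pos he0]
  have h2 : |q.1 - e - q.1| ≤ e := by
    rw [sub_sub_cancel_left, abs_neg, abs_of_pos he0]
  have hA := h _ (hb _ h1).1
  have hB := h _ (hb _ h2).1
  have hA' := hv' _ (hb _ h1).2
  have hB' := hv' _ (hb _ h2).2
  dsimp only at hA hB hA' hB'
  have hE : (0 < s * (q.1 + e - p.1)) = (0 < s * (q.1 - e - p.1)) := by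
    apply propext
    rcases le_total 0 (q.1 - p.1) with h0 | h0
    · rw [abs_of_nonneg h0] at he3
      rcases hs with rfl | rfl
      · exact ⟨fun _ => by linarith, fun _ => by linarith⟩
      · exact ⟨fun _ => by linarith, fun _ => by linarith⟩
    · rw [abs_of_nonpos h0] at he3
      rcases hs with rfl | rfl
      · exact ⟨fun _ => by linarith, fun _ => by linarith⟩
      · exact ⟨fun _ => by linarith, fun _ => by linarith⟩
  rw [hE] at hA
  have hC := hA'.symm.trans (hA.trans (hB.symm.trans hB'))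
  rcases hs' with rfl | rfl
  · have h3 := hC.1 (by linarith)
    linarith
  · have h3 := hC.2 (by linarith)
    linarith

theorem local_XC (hD : RectDomain D) (hp : p ∈ frontier D) :
    ∃ r > 0, ∀ q ∈ ball p r, VertPt D q → q.1 = p.1 := by
  rcases types hD hp with ⟨s, hs, r, hr, h⟩ | ⟨t, ht, r, hr, h⟩ | ⟨s, t, hs, ht, r, hr, h⟩ |
    ⟨s, t, hs, ht, r, hr, h⟩
  · exact ⟨r, hr, GFin_aux (P := fun a _ => a) (t := 1) hs h⟩
  · exact ⟨r, hr, GFin_aux (P := fun _ b => b) (s := 1) (Or.inl rfl) h⟩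
  · exact ⟨r, hr, GFin_aux (P := fun a b => a ∧ b) hs h⟩
  · exact ⟨r, hr, GFin_aux (P := fun a b => a ∨ b) hs h⟩

theorem finite_XC (hD : RectDomain D) : (XC D).Finite := by
  have hc : IsCompact (frontier D) := Metric.isCompact_of_isClosed_isBounded isClosed_frontier
    (hD.isBounded.closure.subset frontier_subset_closure)
  choose! r hr hl using fun (p : ℝ × ℝ) (hp : p ∈ frontier D) => local_XC hD hp
  obtain ⟨T, hT⟩ := hc.elim_nhds_subcover' (fun x _ => ball x (r x))
    fun x hx => ball_mem_nhds x (hr x hx)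
  refine (T.finite_toSet.image fun x : frontier D => x.1.1).subset ?_
  rintro a ⟨y, hy⟩
  obtain ⟨s, hs, hv⟩ := vertPt_iff.1 hy
  have h1 := hT (VS.front hs hv)
  rw [mem_iUnion₂] at h1
  obtain ⟨x, hx, h2⟩ := h1
  exact ⟨x, hx, (hl x.1 x.2 _ h2 hy).symm⟩

theorem finite_YC (hD : RectDomain D) : (YC D).Finite := by
  rw [← XC_swp]
  exact finite_XC (rectDomain_swp hD)

theorem exists_not_mem {X : Set ℝ} (hX : X.Finite) {a b : ℝ} (hab : a < b) :
    ∃ x, a < x ∧ x < b ∧ x ∉ X := by
  by_contra hcon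
  push Not at hcon
  exact (Set.Ioo_infinite hab) (hX.subset fun x hx => hcon x hx.1 hx.2)

end

end Pool.Agent.MP4eed4eR.G
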