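import Pool.Agent.Lib.MP_4eed4e_an_RG.GChord
import Pool.Agent.Lib.MP_4eed4e_an_RG.GFin

/-!
MP_4eed4e_an, project R, block G: the area bounds the widths.

PROOF. `volume D = ∫⁻ x, volume {y' | (x, y') ∈ D}` (`Measure.prod_apply`, `D` is open, hence
measurable). For `a < x < c`, `x ∉ XC D`, the point `(x, y)` is in `D`, the vertical chord through
it (`exists_ch` for `swp D` and the point `(y, x)`) has length at least `v`, so the section has
measure at least `v`. `XC D` is finite, so it is a null set. Hence `ofReal (v * (c - a)) ≤ volume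
D`.
-/

namespace Pool.Agent.MP4eed4eR.G

open Set Metric MeasureTheory

noncomputable section

variable {D : Set (ℝ × ℝ)}

/-- The section at `x` has measure at least `v`. -/
private theorem sec (hD : RectDomain D) {v : ℝ}
    (hV : ∀ x β β', x ∉ XC D → Ch (swp D) x β β' → v ≤ β' - β) {x y : ℝ} (hx : x ∉ XC D)
    (hxy : (x, y) ∈ D) : ENNReal.ofReal v ≤ volume (Prod.mk x ⁻¹' D) := by
  have hp : ((y, x) : ℝ × ℝ) ∈ swp D := hxy
  obtain ⟨β, β', hch, -, -⟩ := exists_ch (isOpen_swp hD.isOpen) (isBounded_swp hD.isBounded) hp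
  have h1 : Ioo β β' ⊆ Prod.mk x ⁻¹' D := fun z hz => hch.2.1 z hz.1 hz.2
  calc ENNReal.ofReal v ≤ ENNReal.ofReal (β' - β) := ENNReal.ofReal_le_ofReal (hV x β β' hx hch)
    _ = volume (Ioo β β') := Real.volume_Ioo.symm
    _ ≤ _ := measure_mono h1

theorem width_le (hD : RectDomain D) {v A : ℝ} (hv : 0 < v) (hA : volume D ≤ ENNReal.ofReal A)
    (hV : ∀ x β β', x ∉ XC D → Ch (swp D) x β β' → v ≤ β' - β) {y a c : ℝ} (h : Ch D y a c) :
    c - a ≤ A / v := by
  have h1 : volume D = ∫⁻ x, volume (Prod.mk x ⁻¹' D) :=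
    Measure.prod_apply hD.isOpen.measurableSet
  have h2 : ENNReal.ofReal v * volume (Ioo a c) ≤ volume D := by
    rw [h1, ← setLIntegral_const]
    refine le_trans (setLIntegral_mono_ae' measurableSet_Ioo ?_) (setLIntegral_le_lintegral _ _)
    filter_upwards [(finite_XC hD).countable.ae_notMem volume] with x hx hxa
    exact sec hD hV hx (h.2.1 x hxa.1 hxa.2)
  rw [Real.volume_Ioo, ← ENNReal.ofReal_mul hv.le] at h2
  have h3 : 0 < v * (c - a) := mul_pos hv (sub_pos.2 h.1)
  rw [le_div_iff₀ hv, mul_comm]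
  rcases ENNReal.ofReal_le_ofReal_iff'.1 (h2.trans hA) with h4 | h4
  · exact h4
  · exact absurd h4 (not_le.2 h3)

end

end Pool.Agent.MP4eed4eR.G
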