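import Pool.Agent.Lib.MP_4eed4e_an_RG.GSideA

/-!
MP_4eed4e_an, project R, block G: the ends of the vertical sides.

PROOFS. `(a, b)` is in the (closed) frontier as a limit of the points `(a, b + ε)` and is not a
`VertPt`. Four types (`types`). `VS`: no. `HS t`: near `(a, b)` the membership in `D` depends only
on the second coordinate, but `VS D s (a, b + ε)` says that one of `(a ± ε', b + ε)` is in `D` and
the other one is not. `CS σ τ`: if `τ = -1` then no point near `(a, b + ε)` is in `D`,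
contradiction; so `τ = 1` and near `(a, b + ε)` `D` is `0 < σ (q.1 - a)`, so `σ = s` (`VS.sgn_eq`,
`CS.vs`). `US σ τ`: if `τ = 1` then the points near `(a, b + ε)` are in `D`, contradiction; so `τ
= -1`, and `σ = s` (`US.vs`). The top in the same way.
-/

namespace Pool.Agent.MP4eed4eR.G

open Set Metric MeasureTheory

noncomputable section

variable {D : Set (ℝ × ℝ)} {a s b b' : ℝ}

private theorem GSideB_ball {x y u v r : ℝ} (h1 : |u - x| < r) (h2 : |v - y| < r) :
    ((u, v) : ℝ × ℝ) ∈ ball ((x, y) : ℝ × ℝ) r := by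
  rw [mem_ball, Prod.dist_eq, max_lt_iff, Real.dist_eq, Real.dist_eq]
  exact ⟨h1, h2⟩

private theorem GSideB_abs {s δ : ℝ} (hs : Sg s) (hδ : 0 < δ) : |s * δ| = δ := by
  rcases hs with rfl | rfl
  · rw [one_mul, abs_of_pos hδ]
  · rw [neg_one_mul, abs_neg, abs_of_pos hδ]

/-- An end point `(a, c)` of a vertical side which leaves it in the direction `e`. -/
private theorem GSideB_end (hD : RectDomain D) (hs : Sg s) {c e r₀ : ℝ} (he : Sg e)
    (hr₀ : 0 < r₀) (hv : ∀ ε, 0 < ε → ε < r₀ → VS D s (a, c + e * ε))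
    (hn : ¬ VertPt D (a, c)) : CS D s e (a, c) ∨ US D s (-e) (a, c) := by
  have hfr : ((a, c) : ℝ × ℝ) ∈ frontier D := by
    have h1 : Filter.Tendsto (fun ε : ℝ => ((a, c + e * ε) : ℝ × ℝ)) (nhdsWithin 0 (Ioi 0))
        (nhds (a, c)) := by
      have h2 : Continuous fun ε : ℝ => ((a, c + e * ε) : ℝ × ℝ) := by fun_prop
      have h3 := (h2.tendsto 0).mono_left (nhdsWithin_le_nhds (s := Ioi 0))
      rwa [mul_zero, add_zero] at h3
    refine isClosed_frontier.mem_of_tendsto h1 ?_
    filter_upwards [Ioo_mem_nhdsGT hr₀] with ε hε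
    exact (hv ε hε.1 hε.2).front hs
  have key : ∀ r > 0, ∃ δ ε : ℝ, 0 < δ ∧ 0 < ε ∧
      ((a + s * δ, c + e * ε) : ℝ × ℝ) ∈ ball ((a, c) : ℝ × ℝ) r ∧
      ((a - s * δ, c + e * ε) : ℝ × ℝ) ∈ ball ((a, c) : ℝ × ℝ) r ∧
      ((a + s * δ, c + e * ε) : ℝ × ℝ) ∈ D ∧ ((a - s * δ, c + e * ε) : ℝ × ℝ) ∉ D := by
    intro r hr
    have hε : 0 < min r r₀ / 2 := by positivity
    have hε1 : min r r₀ / 2 < r := by
      have := min_le_left r r₀
      linarith
    have hε2 : min r r₀ / 2 < r₀ := by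
      have := min_le_right r r₀
      linarith
    obtain ⟨r', hr', hV⟩ := hv _ hε hε2
    have hδ : 0 < min r r' / 2 := by positivity
    have hδ1 : min r r' / 2 < r := by
      have := min_le_left r r'
      linarith
    have hδ2 : min r r' / 2 < r' := by
      have := min_le_right r r'
      linarith
    have e1 := GSideB_abs hs hδ
    have e2 := GSideB_abs he hε
    refine ⟨min r r' / 2, min r r₀ / 2, hδ, hε, ?_, ?_, ?_, ?_⟩
    · refine GSideB_ball ?_ ?_
      · rw [add_sub_cancel_left, e1]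
        exact hδ1
      · rw [add_sub_cancel_left, e2]
        exact hε1
    · refine GSideB_ball ?_ ?_
      · rw [sub_sub_cancel_left, abs_neg, e1]
        exact hδ1
      · rw [add_sub_cancel_left, e2]
        exact hε1
    · rw [hV _ (GSideB_ball (by rw [add_sub_cancel_left, e1]; exact hδ2)
        (by rw [sub_self, abs_zero]; exact hr'))]
      show 0 < s * (a + s * (min r r' / 2) - a)
      rcases hs with rfl | rfl <;> linarith
    · rw [hV _ (GSideB_ball (by rw [sub_sub_cancel_left, abs_neg, e1]; exact hδ2)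
        (by rw [sub_self, abs_zero]; exact hr'))]
      show ¬ 0 < s * (a - s * (min r r' / 2) - a)
      rcases hs with rfl | rfl <;> linarith
  rcases types hD hfr with ⟨s', hs', h⟩ | ⟨t, ht, h⟩ | ⟨σ, τ, hσ, hτ, h⟩ | ⟨σ, τ, hσ, hτ, h⟩
  · exact absurd (vertPt_iff.2 ⟨s', hs', h⟩) hn
  · exfalso
    obtain ⟨r, hr, h⟩ := h
    obtain ⟨δ, ε, hδ, hε, h1, h2, h3, h4⟩ := key r hr
    exact h4 ((h _ h2).2 ((h _ h1).1 h3))
  · left
    have h0 := h
    obtain ⟨r, hr, h⟩ := h
    obtain ⟨δ, ε, hδ, hε, h1, h2, h3, h4⟩ := key r hr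
    have h5 : 0 < σ * (a + s * δ - a) ∧ 0 < τ * (c + e * ε - c) := (h _ h1).1 h3
    rw [add_sub_cancel_left, add_sub_cancel_left] at h5
    have e1 : σ = s := by
      rcases hσ with rfl | rfl <;> rcases hs with rfl | rfl <;>
        first | rfl | (exfalso; linarith [h5.1])
    have e2 : τ = e := by
      rcases hτ with rfl | rfl <;> rcases he with rfl | rfl <;>
        first | rfl | (exfalso; linarith [h5.2])
    rw [← e1, ← e2]
    exact h0
  · right
    have h0 := h
    obtain ⟨r, hr, h⟩ := h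
    obtain ⟨δ, ε, hδ, hε, h1, h2, h3, h4⟩ := key r hr
    have h5 : ¬ (0 < σ * (a - s * δ - a) ∨ 0 < τ * (c + e * ε - c)) :=
      fun h6 => h4 ((h _ h2).2 h6)
    rw [sub_sub_cancel_left, add_sub_cancel_left, not_or, not_lt, not_lt] at h5
    have e1 : σ = s := by
      rcases hσ with rfl | rfl <;> rcases hs with rfl | rfl <;>
        first | rfl | (exfalso; linarith [h5.1])
    have e2 : τ = -e := by
      rcases hτ with rfl | rfl <;> rcases he with rfl | rfl <;>
        first | rfl | (exfalso; linarith [h5.2]) | norm_num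
    rw [← e1, ← e2]
    exact h0

theorem bot_type (hD : RectDomain D) (hs : Sg s) (hbb : b < b')
    (h : ¬ VertPt D (a, b)) (hv : ∀ y, b < y → y < b' → VS D s (a, y)) :
    CS D s 1 (a, b) ∨ US D s (-1) (a, b) := by
  refine GSideB_end hD hs (Or.inl rfl) (sub_pos.2 hbb) (fun ε h1 h2 => hv _ ?_ ?_) h
  · linarith
  · linarith

theorem top_type (hD : RectDomain D) (hs : Sg s) (hbb : b < b')
    (h : ¬ VertPt D (a, b')) (hv : ∀ y, b < y → y < b' → VS D s (a, y)) :
    CS D s (-1) (a, b') ∨ US D s 1 (a, b') := by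
  have h1 := GSideB_end (e := -1) hD hs (Or.inr rfl) (sub_pos.2 hbb)
    (fun ε h1 h2 => hv _ (by linarith) (by linarith)) h
  rwa [neg_neg] at h1

theorem exists_side (hD : RectDomain D) (ha : a ∈ XC D) : ∃ s b b', Side D a s b b' := by
  obtain ⟨b, b', hbb, h, hb, hb'⟩ := exists_interval hD ha
  obtain ⟨s, hs, hv⟩ := sgn_const h
  exact ⟨s, b, b', hs, hbb, hv, bot_type hD hs hbb hb hv, top_type hD hs hbb hb' hv⟩

end

end Pool.Agent.MP4eed4eR.G
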