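import Pool.Agent.Lib.MP_4eed4e_an_RG.GChord
import Pool.Agent.Lib.MP_4eed4e_an_RG.GFin
import Pool.Agent.Lib.MP_4eed4e_an_RG.GSideB

/-!
MP_4eed4e_an, project R, block G: the area bounds the number of the vertical sides.

PROOFS.
* `chord_at`. `s = 1`: `(a + ε, y) ∈ D` for small `ε > 0`, `(a, y) ∉ D`; take the chord through
  `(a + ε, y)`, its left end is `a` (`Ch.eq_left`). `s = -1` in the same way.
* `sec_ge`. For `a ∈ F` let `J a` be the open interval of the chord of `chord_at`; its length is at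
  least `v` (`hH`), it is contained in the section, and for `a ≠ a'` in `F` the intervals are
  disjoint (`Ch.disj` for `s = 1`, `Ch.disj'` for `s = -1`). Add the measures
  (`measure_biUnion_finset`).
* `card_sgn_le`. `volume D = ∫⁻ y, volume {x | (x, y) ∈ D}` (`Measure.prod_apply_symm`); for
  `y ∉ YC D` the section has measure at least `v` times the number of the `a ∈ F` with
  `f a < y < g a` (`sec_ge` for the filtered set). Integrate
  `∑ a ∈ F, indicator (Ioo (f a) (g a)) v` (`lintegral_finset_sum`).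
* `card_le`. Choose one vertical side for each element of `XC D` (`exists_side`), split `XC D`
  (finite) into the two signs and add; `0 < A` because `D` is open and not empty, so `0 < volume
  D` (`IsOpen.measure_pos`).
-/

namespace Pool.Agent.MP4eed4eR.G

open Set Metric MeasureTheory

noncomputable section

variable {D : Set (ℝ × ℝ)}

theorem chord_at (hD : RectDomain D) {s a y : ℝ} (hs : Sg s) (h : VS D s (a, y)) :
    ∃ a' c', Ch D y a' c' ∧ (s = 1 → a' = a) ∧ (s = -1 → c' = a) := by
  have hn : (a, y) ∉ D := h.not_mem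
  obtain ⟨r, hr, hball⟩ := h
  have hin : ∀ x : ℝ, |x - a| < r → ((x, y) ∈ D ↔ 0 < s * (x - a)) := by
    intro x hx
    refine hball (x, y) ?_
    rw [mem_ball, Prod.dist_eq, max_lt_iff]
    exact ⟨by rw [Real.dist_eq]; exact hx, by simpa using hr⟩
  rcases hs with rfl | rfl
  · have hp : ((a + r / 2, y) : ℝ × ℝ) ∈ D := by
      rw [hin (a + r / 2) (by rw [abs_lt]; constructor <;> linarith)]
      linarith
    obtain ⟨a', c', hch, h1, h2⟩ := exists_ch hD.isOpen hD.isBounded hp
    refine ⟨a', c', hch, fun _ => ?_, fun h3 => absurd h3 (by norm_num)⟩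
    refine Ch.eq_left hch h1 h2 (by simp only; linarith) (fun x' h3 h4 => ?_) hn
    simp only at h4
    rw [hin x' (by rw [abs_lt]; constructor <;> linarith)]
    linarith
  · have hp : ((a - r / 2, y) : ℝ × ℝ) ∈ D := by
      rw [hin (a - r / 2) (by rw [abs_lt]; constructor <;> linarith)]
      linarith
    obtain ⟨a', c', hch, h1, h2⟩ := exists_ch hD.isOpen hD.isBounded hp
    refine ⟨a', c', hch, fun h3 => absurd h3 (by norm_num), fun _ => ?_⟩
    refine Ch.eq_right hch h1 h2 (by simp only; linarith) (fun x' h3 h4 => ?_) hn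
    simp only at h3
    rw [hin x' (by rw [abs_lt]; constructor <;> linarith)]
    linarith

theorem sec_ge (hD : RectDomain D) {v : ℝ} (hv : 0 < v)
    (hH : ∀ y a c, y ∉ YC D → Ch D y a c → v ≤ c - a) {s : ℝ} (hs : Sg s) {F : Finset ℝ} {y : ℝ}
    (hy : y ∉ YC D) (hF : ∀ a ∈ F, VS D s (a, y)) :
    (F.card : ENNReal) * ENNReal.ofReal v ≤ volume {x | (x, y) ∈ D} := by
  have h1 : ∀ a ∈ F, ∃ p : ℝ × ℝ, Ch D y p.1 p.2 ∧ (s = 1 → p.1 = a) ∧ (s = -1 → p.2 = a) := by
    intro a ha
    obtain ⟨a', c', h2⟩ := chord_at hD hs (hF a ha)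
    exact ⟨(a', c'), h2⟩
  choose! P hP using h1
  have hdis : Set.PairwiseDisjoint (F : Set ℝ) fun a => Ioo (P a).1 (P a).2 := by
    intro a ha b hb hab
    have ha' := hP a ha
    have hb' := hP b hb
    rcases hs with rfl | rfl
    · refine Ch.disj ha'.1 hb'.1 ?_
      rw [ha'.2.1 rfl, hb'.2.1 rfl]
      exact hab
    · refine Ch.disj' ha'.1 hb'.1 ?_
      rw [ha'.2.2 rfl, hb'.2.2 rfl]
      exact hab
  calc (F.card : ENNReal) * ENNReal.ofReal v = ∑ _a ∈ F, ENNReal.ofReal v := by
        rw [Finset.sum_const, nsmul_eq_mul]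
    _ ≤ ∑ a ∈ F, volume (Ioo (P a).1 (P a).2) := by
        refine Finset.sum_le_sum fun a ha => ?_
        rw [Real.volume_Ioo]
        exact ENNReal.ofReal_le_ofReal (hH y _ _ hy (hP a ha).1)
    _ = volume (⋃ a ∈ F, Ioo (P a).1 (P a).2) :=
        (measure_biUnion_finset hdis fun _ _ => measurableSet_Ioo).symm
    _ ≤ volume {x | (x, y) ∈ D} := by
        refine measure_mono ?_
        intro x hx
        rw [mem_iUnion₂] at hx
        obtain ⟨a, ha, hx⟩ := hx
        exact (hP a ha).1.2.1 x hx.1 hx.2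

theorem card_sgn_le (hD : RectDomain D) {v e A : ℝ} (hv : 0 < v) (he : 0 < e)
    (hA : volume D ≤ ENNReal.ofReal A) (hH : ∀ y a c, y ∉ YC D → Ch D y a c → v ≤ c - a) {s : ℝ}
    (hs : Sg s) {F : Finset ℝ} (f g : ℝ → ℝ) (hfg : ∀ a ∈ F, e ≤ g a - f a)
    (hF : ∀ a ∈ F, ∀ y, f a < y → y < g a → VS D s (a, y)) :
    (F.card : ENNReal) * ENNReal.ofReal (v * e) ≤ ENNReal.ofReal A := by
  classical
  refine le_trans ?_ hA
  have hvol : volume D = ∫⁻ y : ℝ, volume {x : ℝ | (x, y) ∈ D} := by
    rw [Measure.volume_eq_prod, Measure.prod_apply_symm hD.isOpen.measurableSet]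
    rfl
  rw [hvol]
  have hae : ∀ᵐ y : ℝ, y ∉ YC D := by
    have h0 : volume (YC D) = 0 := (finite_YC hD).measure_zero _
    exact measure_eq_zero_iff_ae_notMem.1 h0
  calc (F.card : ENNReal) * ENNReal.ofReal (v * e)
      = ∑ _a ∈ F, ENNReal.ofReal v * ENNReal.ofReal e := by
        rw [Finset.sum_const, nsmul_eq_mul, ENNReal.ofReal_mul hv.le]
    _ ≤ ∑ a ∈ F, ENNReal.ofReal v * volume (Ioo (f a) (g a)) := by
        refine Finset.sum_le_sum fun a ha => ?_
        rw [Real.volume_Ioo]
        gcongr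
        exact hfg a ha
    _ = ∑ a ∈ F, ∫⁻ y, (Ioo (f a) (g a)).indicator (fun _ => ENNReal.ofReal v) y := by
        refine Finset.sum_congr rfl fun a _ => ?_
        rw [lintegral_indicator_const measurableSet_Ioo]
    _ = ∫⁻ y, ∑ a ∈ F, (Ioo (f a) (g a)).indicator (fun _ => ENNReal.ofReal v) y := by
        rw [lintegral_finset_sum]
        exact fun a _ => measurable_const.indicator measurableSet_Ioo
    _ ≤ ∫⁻ y : ℝ, volume {x : ℝ | (x, y) ∈ D} := by
        refine lintegral_mono_ae ?_
        filter_upwards [hae] with y hy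
        have h1 := sec_ge hD hv hH hs (F := F.filter fun a => f a < y ∧ y < g a) hy
          (by
            intro a ha
            rw [Finset.mem_filter] at ha
            exact hF a ha.1 y ha.2.1 ha.2.2)
        refine le_trans (le_of_eq ?_) h1
        rw [← nsmul_eq_mul, ← Finset.sum_const, Finset.sum_filter]
        refine Finset.sum_congr rfl fun a _ => ?_
        rw [indicator_apply]
        rfl

theorem card_le (hD : RectDomain D) {v e A : ℝ} (hv : 0 < v) (he : 0 < e)
    (hA : volume D ≤ ENNReal.ofReal A) (hH : ∀ y a c, y ∉ YC D → Ch D y a c → v ≤ c - a)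
    (hside : ∀ a s b b', Side D a s b b' → e ≤ b' - b) :
    ((XC D).ncard : ℝ) ≤ 2 * A / (v * e) := by
  classical
  have hfin := finite_XC hD
  have hpos : 0 < volume D := hD.isOpen.measure_pos _ hD.isConnected.nonempty
  have hA0 : 0 < A := ENNReal.ofReal_pos.1 (hpos.trans_le hA)
  have h1 : ∀ a ∈ XC D, ∃ p : ℝ × ℝ × ℝ, Side D a p.1 p.2.1 p.2.2 := by
    intro a ha
    obtain ⟨s, b, b', h⟩ := exists_side hD ha
    exact ⟨(s, b, b'), h⟩
  choose! P hP using h1
  have key : ∀ s : ℝ, Sg s →
      ((hfin.toFinset.filter fun a => (P a).1 = s).card : ℝ) * (v * e) ≤ A := by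
    intro s hs
    have h2 := card_sgn_le hD hv he hA hH hs (F := hfin.toFinset.filter fun a => (P a).1 = s)
      (fun a => (P a).2.1) (fun a => (P a).2.2)
      (by
        intro a ha
        rw [Finset.mem_filter, Finite.mem_toFinset] at ha
        exact hside a _ _ _ (hP a ha.1))
      (by
        intro a ha y hy1 hy2
        rw [Finset.mem_filter, Finite.mem_toFinset] at ha
        have h3 := (hP a ha.1).vs y hy1 hy2
        rwa [ha.2] at h3)
    rw [← ENNReal.ofReal_natCast, ← ENNReal.ofReal_mul (Nat.cast_nonneg _),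
      ENNReal.ofReal_le_ofReal_iff hA0.le] at h2
    exact h2
  have hcard : (XC D).ncard = (hfin.toFinset.filter fun a => (P a).1 = 1).card +
      (hfin.toFinset.filter fun a => (P a).1 = -1).card := by
    rw [ncard_eq_toFinset_card _ hfin,
      ← Finset.card_filter_add_card_filter_not (s := hfin.toFinset) fun a => (P a).1 = 1]
    congr 2
    refine Finset.filter_congr fun a ha => ?_
    rw [Finite.mem_toFinset] at ha
    rcases (hP a ha).sg with h3 | h3
    · rw [h3]
      norm_num
    · rw [h3]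
      norm_num
  have k1 := key 1 (Or.inl rfl)
  have k2 := key (-1) (Or.inr rfl)
  rw [le_div_iff₀ (by positivity), hcard]
  push_cast
  linarith

end

end Pool.Agent.MP4eed4eR.G
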