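import Pool.Agent.Lib.MP_4eed4e_an_RG.GWidth

/-!
MP_4eed4e_an, project R, block G: cells of a grid.

PROOFS.
* `regular`. `D ⊆ interior (closure D)` because `D` is open. If `p ∈ interior (closure D)` and `p
  ∉ D` then `p ∈ frontier D`, four types; in each case there are points `q` arbitrarily close to
  `p` with a neighbourhood disjoint from `D` (for example `q = p - (s ε, t ε)` or `q = p - (s ε,
  0)`), so `q ∉ closure D`, contradiction.
* `cell`. The horizontal chord `(a, c)` through `p` ends in `XC D ⊆ X` (`ch_ends_XC`, `p.2 ∉ Y ⊇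
  YC D`), the vertical one in `YC D ⊆ Y` (`ch_ends_XC` for `swp D`). So there are the greatest `x
  ∈ X` below `p.1`, the least `x' ∈ X` above `p.1`, and similarly `y, y'`; `R = Ioo x x' ×ˢ Ioo y
  y'` is connected (convex), contains `p ∈ D`, and is disjoint from `frontier D` (`frontier_grid`:
  no element of `X` between `x` and `x'`, no element of `Y` between `y` and `y'`), so `R ⊆ D`
  (`IsPreconnected.subset_of_closure_inter_subset` or `isPreconnected_iff_subset_of_disjoint` with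
  the open sets `D` and the complement of `closure D`).
-/

namespace Pool.Agent.MP4eed4eR.G

open Set Metric MeasureTheory

noncomputable section

variable {D : Set (ℝ × ℝ)}

private theorem quad {D : Set (ℝ × ℝ)} {p : ℝ × ℝ} (hp : p ∈ interior (closure D)) {s t ρ : ℝ}
    (hs : Sg s) (ht : Sg t) (hρ : 0 < ρ) :
    ∃ q ∈ D, q ∈ ball p ρ ∧ s * (q.1 - p.1) < 0 ∧ t * (q.2 - p.2) < 0 := by
  obtain ⟨δ, hδ, hb⟩ := Metric.isOpen_iff.1 isOpen_interior p hp
  set τ := min ρ δ with hτ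
  have hτ0 : 0 < τ := lt_min hρ hδ
  have hss : s * s = 1 := by rcases hs with h | h <;> rw [h] <;> norm_num
  have htt : t * t = 1 := by rcases ht with h | h <;> rw [h] <;> norm_num
  have has : |s| = 1 := by rcases hs with h | h <;> rw [h] <;> norm_num
  have hat : |t| = 1 := by rcases ht with h | h <;> rw [h] <;> norm_num
  set q₀ : ℝ × ℝ := (p.1 - s * (τ / 2), p.2 - t * (τ / 2)) with hq₀
  have hd : dist q₀ p < τ := by
    rw [Prod.dist_eq, Real.dist_eq, Real.dist_eq]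
    have e1 : |q₀.1 - p.1| = τ / 2 := by
      have : q₀.1 - p.1 = - (s * (τ / 2)) := by simp [hq₀]
      rw [this, abs_neg, abs_mul, has, one_mul, abs_of_pos (by linarith)]
    have e2 : |q₀.2 - p.2| = τ / 2 := by
      have : q₀.2 - p.2 = - (t * (τ / 2)) := by simp [hq₀]
      rw [this, abs_neg, abs_mul, hat, one_mul, abs_of_pos (by linarith)]
    rw [e1, e2, max_self]
    linarith
  have hq₀c : q₀ ∈ closure D :=
    interior_subset (hb (Metric.mem_ball.2 (lt_of_lt_of_le hd (min_le_right _ _))))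
  have hV : IsOpen {q : ℝ × ℝ | q ∈ ball p ρ ∧ s * (q.1 - p.1) < 0 ∧ t * (q.2 - p.2) < 0} := by
    have o1 : IsOpen {q : ℝ × ℝ | s * (q.1 - p.1) < 0} :=
      isOpen_lt (by fun_prop) continuous_const
    have o2 : IsOpen {q : ℝ × ℝ | t * (q.2 - p.2) < 0} :=
      isOpen_lt (by fun_prop) continuous_const
    exact isOpen_ball.inter (o1.inter o2)
  obtain ⟨q, hq, hqD⟩ := mem_closure_iff.1 hq₀c _ hV (by
    refine ⟨Metric.mem_ball.2 (lt_of_lt_of_le hd (min_le_left _ _)), ?_, ?_⟩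
    · have : s * (q₀.1 - p.1) = - (s * s) * (τ / 2) := by simp only [hq₀]; ring
      rw [this, hss]; linarith
    · have : t * (q₀.2 - p.2) = - (t * t) * (τ / 2) := by simp only [hq₀]; ring
      rw [this, htt]; linarith)
  exact ⟨q, hqD, hq⟩

theorem regular (hD : RectDomain D) : interior (closure D) = D := by
  refine subset_antisymm (fun p hp ↦ ?_) hD.isOpen.subset_interior_closure
  by_contra hpD
  have hf : p ∈ frontier D := ⟨interior_subset hp, by rwa [hD.isOpen.interior_eq]⟩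
  have one : Sg (1 : ℝ) := Or.inl rfl
  rcases types hD hf with ⟨s, hs, r, hr, h⟩ | ⟨t, ht, r, hr, h⟩ | ⟨s, t, hs, ht, r, hr, h⟩ |
    ⟨s, t, hs, ht, r, hr, h⟩
  · obtain ⟨q, hq, hb, h1, -⟩ := quad hp hs one hr
    exact absurd ((h q hb).1 hq) (not_lt.2 h1.le)
  · obtain ⟨q, hq, hb, -, h1⟩ := quad hp one ht hr
    exact absurd ((h q hb).1 hq) (not_lt.2 h1.le)
  · obtain ⟨q, hq, hb, h1, -⟩ := quad hp hs ht hr
    exact absurd ((h q hb).1 hq).1 (not_lt.2 h1.le)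
  · obtain ⟨q, hq, hb, h1, h2⟩ := quad hp hs ht hr
    rcases (h q hb).1 hq with h3 | h3
    · exact absurd h3 (not_lt.2 h1.le)
    · exact absurd h3 (not_lt.2 h2.le)

theorem cell (hD : RectDomain D) {X Y : Set ℝ} (hX : X.Finite) (hY : Y.Finite) (hXC : XC D ⊆ X)
    (hYC : YC D ⊆ Y) {p : ℝ × ℝ} (hp : p ∈ D) (h1 : p.1 ∉ X) (h2 : p.2 ∉ Y) :
    ∃ R ∈ rects X Y, p ∈ R ∧ R ⊆ D := by
  obtain ⟨a, c, hc, hap, hpc⟩ := exists_ch hD.isOpen hD.isBounded hp
  obtain ⟨haX, hcX⟩ := ch_ends_XC hD hc fun h ↦ h2 (hYC h)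
  have hp' : ((p.2, p.1) : ℝ × ℝ) ∈ swp D := hp
  obtain ⟨b, b', hb, hbp, hpb⟩ := exists_ch (isOpen_swp hD.isOpen) (isBounded_swp hD.isBounded) hp'
  obtain ⟨hbY, hbY'⟩ := ch_ends_XC (rectDomain_swp hD) hb fun h ↦ by
    rw [YC_swp] at h
    exact h1 (hXC h)
  rw [XC_swp] at hbY hbY'
  obtain ⟨x, ⟨hxX, hxp⟩, hx⟩ := Set.exists_max_image (X ∩ Iio p.1) id (hX.inter_of_left _)
    ⟨a, hXC haX, hap⟩
  obtain ⟨x', ⟨hxX', hxp'⟩, hx'⟩ := Set.exists_min_image (X ∩ Ioi p.1) id (hX.inter_of_left _)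
    ⟨c, hXC hcX, hpc⟩
  obtain ⟨y, ⟨hyY, hyp⟩, hy⟩ := Set.exists_max_image (Y ∩ Iio p.2) id (hY.inter_of_left _)
    ⟨b, hYC hbY, hbp⟩
  obtain ⟨y', ⟨hyY', hyp'⟩, hy'⟩ := Set.exists_min_image (Y ∩ Ioi p.2) id (hY.inter_of_left _)
    ⟨b', hYC hbY', hpb⟩
  simp only [id] at hx hx' hy hy'
  have hpR : p ∈ Ioo x x' ×ˢ Ioo y y' := ⟨⟨hxp, hxp'⟩, hyp, hyp'⟩
  refine ⟨_, ⟨x, hxX, x', hxX', y, hyY, y', hyY', rfl⟩, hpR, ?_⟩
  have hfr : ∀ q ∈ Ioo x x' ×ˢ Ioo y y', q ∉ frontier D := by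
    rintro q ⟨hq1, hq2⟩ hq
    have gap : ∀ {Z : Set ℝ} {z z' u v : ℝ}, u ∉ Z → v ∈ Z → v ∈ Ioo z z' →
        (∀ w ∈ Z ∩ Iio u, w ≤ z) → (∀ w ∈ Z ∩ Ioi u, z' ≤ w) → False := by
      intro Z z z' u v hu hv hvz hz hz'
      rcases lt_trichotomy v u with h | h | h
      · exact absurd (hz v ⟨hv, h⟩) (not_le.2 hvz.1)
      · exact hu (h ▸ hv)
      · exact absurd (hz' v ⟨hv, h⟩) (not_le.2 hvz.2)
    rcases frontier_grid hD hq with h | h
    · exact gap h1 (hXC h) hq1 hx hx'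
    · exact gap h2 (hYC h) hq2 hy hy'
  have hconn : IsPreconnected (Ioo x x' ×ˢ Ioo y y' : Set (ℝ × ℝ)) :=
    isPreconnected_Ioo.prod isPreconnected_Ioo
  refine hconn.subset_left_of_subset_union hD.isOpen isClosed_closure.isOpen_compl
    (disjoint_compl_right.mono_left subset_closure) (fun q hq ↦ ?_) ⟨p, hpR, hp⟩
  by_cases hqD : q ∈ D
  · exact Or.inl hqD
  · refine Or.inr fun hqc ↦ hfr q hq ⟨hqc, ?_⟩
    rwa [hD.isOpen.interior_eq]

end

end Pool.Agent.MP4eed4eR.G
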