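import Pool.Agent.Lib.MP_4eed4e_an_RG.GCellA
import Pool.Agent.Lib.MP_4eed4e_an_RG.GFin

/-!
MP_4eed4e_an, project R, block G: a domain is determined by the cells which it contains.

PROOFS.
* `eq_cells`. `⊇`: the union is contained in `D` and `interior (closure D) = D` (`regular`). `⊆`:
  it is enough that `D ⊆ closure (⋃₀ ..)` (`interior_maximal`, `D` open). Every neighbourhood of
  `p ∈ D` contains a `q ∈ D` with `q.1 ∉ X`, `q.2 ∉ Y` (`exists_not_mem`), which is in a cell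
  (`cell`).
* `finite_rects`: image of a finite set.
* `finite_doms`. The map `D ↦ {R ∈ rects X Y | R ⊆ D}` is injective on the set by `eq_cells`, and
  its values are subsets of a finite set (`Set.Finite.finite_subsets`, `Set.Finite.of_injOn`).
-/

namespace Pool.Agent.MP4eed4eR.G

open Set Metric MeasureTheory

noncomputable section

variable {D : Set (ℝ × ℝ)}

theorem eq_cells (hD : RectDomain D) {X Y : Set ℝ} (hX : X.Finite) (hY : Y.Finite)
    (hXC : XC D ⊆ X) (hYC : YC D ⊆ Y) :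
    D = interior (closure (⋃₀ {R | R ∈ rects X Y ∧ R ⊆ D})) := by
  refine subset_antisymm (interior_maximal (fun p hp ↦ ?_) hD.isOpen) ?_
  · rw [Metric.mem_closure_iff]
    intro ε hε
    obtain ⟨δ, hδ, hb⟩ := Metric.isOpen_iff.1 hD.isOpen p hp
    have hτ : 0 < min ε δ := lt_min hε hδ
    obtain ⟨u, hu1, hu2, huX⟩ := exists_not_mem hX (show p.1 < p.1 + min ε δ by linarith)
    obtain ⟨v, hv1, hv2, hvY⟩ := exists_not_mem hY (show p.2 < p.2 + min ε δ by linarith)
    have hd : dist ((u, v) : ℝ × ℝ) p < min ε δ := by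
      rw [Prod.dist_eq, Real.dist_eq, Real.dist_eq]
      refine max_lt ?_ ?_
      · rw [abs_of_pos (by simpa using hu1)]
        simp only
        linarith
      · rw [abs_of_pos (by simpa using hv1)]
        simp only
        linarith
    have hqD : ((u, v) : ℝ × ℝ) ∈ D :=
      hb (Metric.mem_ball.2 (lt_of_lt_of_le hd (min_le_right _ _)))
    obtain ⟨R, hR, hqR, hRD⟩ := cell hD hX hY hXC hYC hqD huX hvY
    exact ⟨(u, v), ⟨R, ⟨hR, hRD⟩, hqR⟩, by
      rw [dist_comm]
      exact lt_of_lt_of_le hd (min_le_left _ _)⟩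
  · calc interior (closure (⋃₀ {R | R ∈ rects X Y ∧ R ⊆ D})) ⊆ interior (closure D) :=
          interior_mono (closure_mono (sUnion_subset fun R hR ↦ hR.2))
      _ = D := regular hD

theorem finite_rects {X Y : Set ℝ} (hX : X.Finite) (hY : Y.Finite) : (rects X Y).Finite := by
  refine (((hX.prod hX).prod (hY.prod hY)).image
    fun z : (ℝ × ℝ) × (ℝ × ℝ) ↦ Ioo z.1.1 z.1.2 ×ˢ Ioo z.2.1 z.2.2).subset ?_
  rintro R ⟨x, hx, x', hx', y, hy, y', hy', rfl⟩
  exact ⟨((x, x'), (y, y')), ⟨⟨hx, hx'⟩, hy, hy'⟩, rfl⟩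

theorem finite_doms {X Y : Set ℝ} (hX : X.Finite) (hY : Y.Finite) :
    {D : Set (ℝ × ℝ) | RectDomain D ∧ XC D ⊆ X ∧ YC D ⊆ Y}.Finite := by
  refine Set.Finite.of_injOn (f := fun D : Set (ℝ × ℝ) ↦ {R | R ∈ rects X Y ∧ R ⊆ D})
    (t := {E | E ⊆ rects X Y}) (fun D _ R hR ↦ hR.1) ?_ (finite_rects hX hY).finite_subsets
  rintro D ⟨hD, h1, h2⟩ D' ⟨hD', h1', h2'⟩ he
  simp only at he
  rw [eq_cells hD hX hY h1 h2, eq_cells hD' hX hY h1' h2', he]

end

end Pool.Agent.MP4eed4eR.G
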