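import Pool.Agent.Lib.MP_4eed4e_an_RG.GDefs

/-!
MP_4eed4e_an, project R, block G: horizontal chords.

PROOFS.
* `exists_ch`. Let `a = sSup {x | x ≤ p.1 ∧ (x, p.2) ∉ D}` and `c = sInf {x | p.1 ≤ x ∧ (x, p.2) ∉
  D}`; the sets are not empty because `D` is bounded, they are closed because `D` is open, so `(a,
  p.2)`, `(c, p.2)` are not in `D`, `a < p.1 < c`, and the points between are in `D`.
* `Ch.unique`: if `a < a'` then `a < a' < x < c`, so `(a', y) ∈ D`; similarly for the other cases.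
* `Ch.disj`: a common point gives `a = a'` by `Ch.unique`; `Ch.disj'` the same for `c`.
* `Ch.front`: the end points are not in `D` and limits of points of `D`.
* `Ch.eq_right`: if `c < c'` then `(c, y)` is in `D` because `x ≤ c < c'`, contradiction with
  `(c, y) ∉ D`; if `c' < c` then `a < x < c' < c` gives `(c', y) ∈ D`.
-/

namespace Pool.Agent.MP4eed4eR.G

open Set Metric MeasureTheory

noncomputable section

variable {D : Set (ℝ × ℝ)} {y a c a' c' x : ℝ}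

theorem exists_ch (ho : IsOpen D) (hb : Bornology.IsBounded D) {p : ℝ × ℝ} (hp : p ∈ D) :
    ∃ a c, Ch D p.2 a c ∧ a < p.1 ∧ p.1 < c := by
  have hC : IsClosed {x : ℝ | ((x, p.2) : ℝ × ℝ) ∉ D} :=
    (ho.preimage (continuous_id.prodMk continuous_const)).isClosed_compl
  obtain ⟨M, hM⟩ := hb.subset_closedBall p
  have hM0 : 0 ≤ M := by
    have h1 := hM hp
    rw [mem_closedBall, dist_self] at h1
    exact h1
  have hout : ∀ x : ℝ, M < |x - p.1| → ((x, p.2) : ℝ × ℝ) ∉ D := by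
    intro x hx hxD
    have h1 := hM hxD
    rw [mem_closedBall, Prod.dist_eq] at h1
    have h2 : dist x p.1 ≤ M := (le_max_left _ _).trans h1
    rw [Real.dist_eq] at h2
    linarith
  have hne1 : ({x : ℝ | ((x, p.2) : ℝ × ℝ) ∉ D} ∩ Iic p.1).Nonempty := by
    refine ⟨p.1 - (M + 1), hout _ ?_, ?_⟩
    · rw [show p.1 - (M + 1) - p.1 = -(M + 1) by ring, abs_neg, abs_of_pos (by linarith)]
      linarith
    · show p.1 - (M + 1) ≤ p.1
      linarith
  have hne2 : ({x : ℝ | ((x, p.2) : ℝ × ℝ) ∉ D} ∩ Ici p.1).Nonempty := by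
    refine ⟨p.1 + (M + 1), hout _ ?_, ?_⟩
    · rw [show p.1 + (M + 1) - p.1 = M + 1 by ring, abs_of_pos (by linarith)]
      linarith
    · show p.1 ≤ p.1 + (M + 1)
      linarith
  have hb1 : BddAbove ({x : ℝ | ((x, p.2) : ℝ × ℝ) ∉ D} ∩ Iic p.1) := ⟨p.1, fun x hx => hx.2⟩
  have hb2 : BddBelow ({x : ℝ | ((x, p.2) : ℝ × ℝ) ∉ D} ∩ Ici p.1) := ⟨p.1, fun x hx => hx.2⟩
  have ha := (hC.inter isClosed_Iic).csSup_mem hne1 hb1
  have hc := (hC.inter isClosed_Ici).csInf_mem hne2 hb2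
  set a := sSup ({x : ℝ | ((x, p.2) : ℝ × ℝ) ∉ D} ∩ Iic p.1) with had
  set c := sInf ({x : ℝ | ((x, p.2) : ℝ × ℝ) ∉ D} ∩ Ici p.1) with hcd
  have ha1 : a < p.1 := lt_of_le_of_ne ha.2 fun h => ha.1 (by rw [h]; exact hp)
  have hc1 : p.1 < c := lt_of_le_of_ne hc.2 fun h => hc.1 (by rw [← h]; exact hp)
  refine ⟨a, c, ⟨ha1.trans hc1, fun x h1 h2 => ?_, ha.1, hc.1⟩, ha1, hc1⟩
  by_contra hx
  rcases le_total x p.1 with h3 | h3
  · exact absurd (le_csSup hb1 ⟨hx, h3⟩) (not_le.2 h1)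
  · exact absurd (csInf_le hb2 ⟨hx, h3⟩) (not_le.2 h2)

theorem Ch.unique (h : Ch D y a c) (h' : Ch D y a' c') (h1 : a < x) (h2 : x < c) (h3 : a' < x)
    (h4 : x < c') : a = a' ∧ c = c' := by
  refine ⟨?_, ?_⟩
  · rcases lt_trichotomy a a' with h5 | h5 | h5
    · exact absurd (h.2.1 a' h5 (h3.trans h2)) h'.2.2.1
    · exact h5
    · exact absurd (h'.2.1 a h5 (h1.trans h4)) h.2.2.1
  · rcases lt_trichotomy c c' with h5 | h5 | h5
    · exact absurd (h'.2.1 c (h3.trans h2) h5) h.2.2.2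
    · exact h5
    · exact absurd (h.2.1 c' (h1.trans h4) h5) h'.2.2.2

theorem Ch.disj (h : Ch D y a c) (h' : Ch D y a' c') (hne : a ≠ a') :
    Disjoint (Ioo a c) (Ioo a' c') :=
  Set.disjoint_left.2 fun _ hx hx' => hne (h.unique h' hx.1 hx.2 hx'.1 hx'.2).1

theorem Ch.disj' (h : Ch D y a c) (h' : Ch D y a' c') (hne : c ≠ c') :
    Disjoint (Ioo a c) (Ioo a' c') :=
  Set.disjoint_left.2 fun _ hx hx' => hne (h.unique h' hx.1 hx.2 hx'.1 hx'.2).2

theorem Ch.front (h : Ch D y a c) :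
    ((a, y) : ℝ × ℝ) ∈ frontier D ∧ ((c, y) : ℝ × ℝ) ∈ frontier D := by
  have hcl : ∀ x ∈ Icc a c, ((x, y) : ℝ × ℝ) ∈ closure D := by
    intro x hx
    rw [← closure_Ioo h.1.ne] at hx
    have h1 : Continuous fun x : ℝ => ((x, y) : ℝ × ℝ) := continuous_id.prodMk continuous_const
    exact map_mem_closure (f := fun x : ℝ => ((x, y) : ℝ × ℝ)) h1 hx
      fun z hz => h.2.1 z hz.1 hz.2
  have hi : ∀ q : ℝ × ℝ, q ∉ D → q ∉ interior D := fun q hq h1 => hq (interior_subset h1)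
  exact ⟨⟨hcl a (left_mem_Icc.2 h.1.le), hi _ h.2.2.1⟩,
    ⟨hcl c (right_mem_Icc.2 h.1.le), hi _ h.2.2.2⟩⟩

theorem Ch.eq_right (h : Ch D y a c) (h1 : a < x) (h2 : x < c) (h3 : x < c')
    (hin : ∀ x', x ≤ x' → x' < c' → (x', y) ∈ D) (hn : (c', y) ∉ D) : c = c' := by
  rcases lt_trichotomy c c' with h5 | h5 | h5
  · exact absurd (hin c h2.le h5) h.2.2.2
  · exact h5
  · exact absurd (h.2.1 c' (h1.trans h3) h5) hn

theorem Ch.eq_left (h : Ch D y a c) (h1 : a < x) (h2 : x < c) (h3 : a' < x)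
    (hin : ∀ x', a' < x' → x' ≤ x → (x', y) ∈ D) (hn : (a', y) ∉ D) : a = a' := by
  rcases lt_trichotomy a a' with h5 | h5 | h5
  · exact absurd (h.2.1 a' h5 (h3.trans h2)) hn
  · exact h5
  · exact absurd (hin a h5 h1.le) h.2.2.1

end

end Pool.Agent.MP4eed4eR.G
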