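import Pool.Agent.Lib.MP_4eed4e_an_RG.GCross
import Pool.Agent.Lib.MP_4eed4e_an_RG.GFin

/-!
MP_4eed4e_an, project R, block G: the graph of the vertical sides is connected.

PROOFS.
* `wall_near`. Let `VS D s (e, y)` with radius `r`, `s = ±1`. Choose `y'` with `y < y' < y + r`,
  `y' ∉ YC D` (`finite_YC`, `exists_not_mem`) and `q = (e + s * r / 2, y') ∈ D`; let `(a, c)` be the
  chord through `q` (`exists_ch`). The points `(e + s * ε, y')`, `0 < ε ≤ r / 2`, are in `D` and
  `(e, y')` is not, so `a = e` if `s = 1` (`Ch.eq_left`) and `c = e` if `s = -1` (`Ch.eq_right`).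
* `XC_conn`. Let `U₁` be the set of the points `p` for which there is `r > 0` such that for all
  `q ∈ ball p r` with `q ∈ D`, `q.2 ∉ YC D` and all chords `(a, c)` of height `q.2` with
  `a < q.1 < c` one has `a ∈ K`; `U₂` the same with `a ∉ K`. Both are open. `D ⊆ U₁ ∪ U₂` by
  `cross` and `hK`. `D ∩ (U₁ ∩ U₂) = ∅`: every neighbourhood of a point of `D` contains a `q ∈ D`
  with `q.2 ∉ YC D`, and there is a chord through `q`. So `D ⊆ U₁` or `D ⊆ U₂`
  (`isPreconnected_iff_subset_of_disjoint`). `wall_near` for `e` excludes `U₂`, and `wall_near` for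
  `e' ∈ XC D` gives `e' ∈ K` (with `hK`).
-/

namespace Pool.Agent.MP4eed4eR.G

open Set Metric MeasureTheory

noncomputable section

variable {D : Set (ℝ × ℝ)}

theorem wall_near (hD : RectDomain D) {e : ℝ} (he : e ∈ XC D) :
    ∃ q ∈ D, q.2 ∉ YC D ∧ ∃ a c, Ch D q.2 a c ∧ a < q.1 ∧ q.1 < c ∧ (a = e ∨ c = e) := by
  obtain ⟨y, hy⟩ := he
  obtain ⟨s, hs, r, hr, hV⟩ := vertPt_iff.1 hy
  obtain ⟨y', hy1, hy2, hy3⟩ := exists_not_mem (finite_YC hD) (a := y) (b := y + r) (by linarith)
  have hyd : |y' - y| < r := by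
    rw [abs_of_pos (by linarith)]
    linarith
  have hball : ∀ x', |x' - e| < r → ((x', y') : ℝ × ℝ) ∈ ball ((e, y) : ℝ × ℝ) r := by
    intro x' hx'
    rw [mem_ball, Prod.dist_eq, Real.dist_eq, Real.dist_eq]
    exact max_lt hx' hyd
  have hmem : ∀ x', |x' - e| < r → (((x', y') : ℝ × ℝ) ∈ D ↔ 0 < s * (x' - e)) :=
    fun x' hx' => hV _ (hball x' hx')
  have hn : ((e, y') : ℝ × ℝ) ∉ D := by
    rw [hmem e (by rw [sub_self, abs_zero]; exact hr), sub_self, mul_zero]
    exact lt_irrefl 0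
  have hss : s * s = 1 := by
    rcases hs with rfl | rfl <;> norm_num
  have habs : |s| = 1 := by
    rcases hs with rfl | rfl <;> norm_num
  have hq : ((e + s * (r / 2), y') : ℝ × ℝ) ∈ D := by
    rw [hmem _ (by
      rw [add_sub_cancel_left, abs_mul, habs, one_mul, abs_of_pos (by linarith)]
      linarith), add_sub_cancel_left, ← mul_assoc, hss]
    linarith
  obtain ⟨a, c, hch, ha, hc⟩ := exists_ch hD.isOpen hD.isBounded hq
  refine ⟨_, hq, hy3, a, c, hch, ha, hc, ?_⟩
  rcases hs with rfl | rfl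
  · left
    refine hch.eq_left ha hc (a' := e) ?_ (fun x' h1 h2 => ?_) hn
    · change e < e + 1 * (r / 2)
      linarith
    · change x' ≤ e + 1 * (r / 2) at h2
      refine (hmem x' ?_).2 ?_
      · rw [abs_of_pos (by linarith)]
        linarith
      · linarith
  · right
    refine hch.eq_right ha hc (c' := e) ?_ (fun x' h1 h2 => ?_) hn
    · change e + -1 * (r / 2) < e
      linarith
    · change e + -1 * (r / 2) ≤ x' at h1
      refine (hmem x' ?_).2 ?_
      · rw [abs_of_neg (by linarith)]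
        linarith
      · linarith

/-- The points for which all chords through the point satisfy `P` at the left end. -/
private def GConn_T (D : Set (ℝ × ℝ)) (P : ℝ → Prop) : Set (ℝ × ℝ) :=
  {q | q ∈ D → q.2 ∉ YC D → ∀ a c, Ch D q.2 a c → a < q.1 → q.1 < c → P a}

private theorem GConn_cover (hD : RectDomain D) (hN : NoDiag D) {K : Set ℝ}
    (hK : ∀ y a c, y ∉ YC D → Ch D y a c → (a ∈ K ↔ c ∈ K)) {p : ℝ × ℝ} (hp : p ∈ D) :
    p ∈ interior (GConn_T D fun a => a ∈ K) ∨ p ∈ interior (GConn_T D fun a => a ∉ K) := by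
  simp only [mem_interior_iff_mem_nhds, Metric.mem_nhds_iff]
  obtain ⟨r, hr, ⟨e, he⟩ | ⟨e, he⟩⟩ := cross hD hN hp
  · by_cases hek : e ∈ K
    · refine Or.inl ⟨r, hr, fun q hq _ hy a c hch h1 h2 => ?_⟩
      have h3 := he q hq a c hch h1 h2
      subst h3
      exact (hK _ _ _ hy hch).2 hek
    · refine Or.inr ⟨r, hr, fun q hq _ hy a c hch h1 h2 ha => ?_⟩
      have h3 := he q hq a c hch h1 h2
      subst h3
      exact hek ((hK _ _ _ hy hch).1 ha)
  · by_cases hek : e ∈ K
    · refine Or.inl ⟨r, hr, fun q hq _ hy a c hch h1 h2 => ?_⟩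
      have h3 := he q hq a c hch h1 h2
      subst h3
      exact hek
    · refine Or.inr ⟨r, hr, fun q hq _ hy a c hch h1 h2 => ?_⟩
      have h3 := he q hq a c hch h1 h2
      subst h3
      exact hek

private theorem GConn_disj (hD : RectDomain D) {K : Set ℝ} {p : ℝ × ℝ} (hp : p ∈ D)
    (h1 : p ∈ interior (GConn_T D fun a => a ∈ K)) (h2 : p ∈ interior (GConn_T D fun a => a ∉ K)) :
    False := by
  obtain ⟨r, hr, hball⟩ := Metric.mem_nhds_iff.1 (Filter.inter_mem (hD.isOpen.mem_nhds hp)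
    (Filter.inter_mem (mem_interior_iff_mem_nhds.1 h1) (mem_interior_iff_mem_nhds.1 h2)))
  obtain ⟨y', hy1, hy2, hy3⟩ := exists_not_mem (finite_YC hD) (a := p.2) (b := p.2 + r)
    (by linarith)
  have hq : ((p.1, y') : ℝ × ℝ) ∈ ball p r := by
    rw [mem_ball, Prod.dist_eq, Real.dist_eq, Real.dist_eq]
    refine max_lt ?_ ?_
    · rw [sub_self, abs_zero]
      exact hr
    · change |y' - p.2| < r
      rw [abs_of_pos (by linarith)]
      linarith
  obtain ⟨hqD, hq1, hq2⟩ := hball hq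
  obtain ⟨a, c, hch, ha, hc⟩ := exists_ch hD.isOpen hD.isBounded hqD
  exact hq2 hqD hy3 a c hch ha hc (hq1 hqD hy3 a c hch ha hc)

theorem XC_conn (hD : RectDomain D) (hN : NoDiag D) {K : Set ℝ}
    (hK : ∀ y a c, y ∉ YC D → Ch D y a c → (a ∈ K ↔ c ∈ K)) {e : ℝ} (he : e ∈ XC D)
    (heK : e ∈ K) : XC D ⊆ K := by
  have hpre := isPreconnected_iff_subset_of_disjoint.1 hD.isConnected.isPreconnected
    (interior (GConn_T D fun a => a ∈ K)) (interior (GConn_T D fun a => a ∉ K))
    isOpen_interior isOpen_interior (fun p hp => GConn_cover hD hN hK hp) (by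
      refine eq_empty_of_forall_notMem fun p hp => ?_
      exact GConn_disj hD hp.1 hp.2.1 hp.2.2)
  rcases hpre with h | h
  · intro e' he'
    obtain ⟨q, hq, hy, a, c, hch, ha, hc, hac⟩ := wall_near hD he'
    have h1 := interior_subset (h hq) hq hy a c hch ha hc
    rcases hac with rfl | rfl
    · exact h1
    · exact (hK _ _ _ hy hch).1 h1
  · exfalso
    obtain ⟨q, hq, hy, a, c, hch, ha, hc, hac⟩ := wall_near hD he
    have h1 := interior_subset (h hq) hq hy a c hch ha hc
    rcases hac with rfl | rfl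
    · exact h1 heK
    · exact h1 ((hK _ _ _ hy hch).2 heK)

end

end Pool.Agent.MP4eed4eR.G
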