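import Pool.Agent.Lib.MP_4eed4e_an_RG.GPts

/-!
MP_4eed4e_an, project R, block G: neighbourhoods of chords.

PROOFS.
* `tube_right`. Let `r` be the radius of `VS` at `(c, y)`, `x₁ = max x (c - r / 2)`. The segment
  `[x, x₁] × {y}` is compact and contained in the open set `D` (if `x₁ < c`, which holds), so
  there is `ε₁ > 0` with `(x', y') ∈ D` for `x' ∈ [x, x₁]`, `|y' - y| < ε₁`
  (`IsCompact.exists_thickening_subset_open`). For `x' ∈ [x₁, c)`, `|y' - y| < r`, the point `(x',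
  y')` is in the ball and `0 < -1 * (x' - c)`. The last statement is `VS.near`.
* `tube_left` in the same way.
* `tube_both`: combine both for the middle point of the chord; `VS.not_mem`.
-/

namespace Pool.Agent.MP4eed4eR.G

open Set Metric MeasureTheory

noncomputable section

variable {D : Set (ℝ × ℝ)} {y a c x : ℝ}

private theorem GTube_ball {q p : ℝ × ℝ} {r : ℝ} :
    q ∈ ball p r ↔ |q.1 - p.1| < r ∧ |q.2 - p.2| < r := by
  rw [mem_ball, Prod.dist_eq, max_lt_iff, Real.dist_eq, Real.dist_eq]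

private theorem GTube_seg (ho : IsOpen D) {x₀ x₁ : ℝ}
    (hin : ∀ x', x₀ ≤ x' → x' ≤ x₁ → (x', y) ∈ D) :
    ∃ ε > 0, ∀ y', |y' - y| < ε → ∀ x', x₀ ≤ x' → x' ≤ x₁ → (x', y') ∈ D := by
  have hK : IsCompact (Icc x₀ x₁ ×ˢ ({y} : Set ℝ)) := isCompact_Icc.prod isCompact_singleton
  have hKD : Icc x₀ x₁ ×ˢ ({y} : Set ℝ) ⊆ D := by
    rintro ⟨u, v⟩ ⟨hu, hv⟩
    have hv' : v = y := hv
    subst hv'
    exact hin u hu.1 hu.2
  obtain ⟨δ, hδ, h⟩ := hK.exists_thickening_subset_open ho hKD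
  refine ⟨δ, hδ, fun y' hy' x' h0 h1 => h ?_⟩
  rw [mem_thickening_iff]
  refine ⟨(x', y), ⟨⟨h0, h1⟩, rfl⟩, ?_⟩
  rw [Prod.dist_eq, dist_self, Real.dist_eq]
  exact max_lt hδ hy'

theorem tube_right (ho : IsOpen D) (hx : x < c) (hin : ∀ x', x ≤ x' → x' < c → (x', y) ∈ D)
    (hV : VS D (-1) (c, y)) :
    ∃ ε > 0, ∀ y', |y' - y| < ε → (∀ x', x ≤ x' → x' < c → (x', y') ∈ D) ∧
      VS D (-1) (c, y') := by
  obtain ⟨r', hr', hn⟩ := hV.near
  obtain ⟨r, hr, hV⟩ := hV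
  obtain ⟨ε, hε, he⟩ := GTube_seg (x₀ := x) (x₁ := max x (c - r / 2)) (y := y) ho
    (fun x' h0 h1 => hin x' h0 (lt_of_le_of_lt h1 (max_lt hx (by linarith))))
  refine ⟨min ε (min r r'), lt_min hε (lt_min hr hr'), fun y' hy' => ⟨fun x' h0 h1 => ?_, ?_⟩⟩
  · by_cases h2 : x' ≤ max x (c - r / 2)
    · exact he y' (lt_of_lt_of_le hy' (min_le_left _ _)) x' h0 h2
    · rw [not_le] at h2
      have h3 : c - r / 2 < x' := lt_of_le_of_lt (le_max_right _ _) h2
      refine (hV (x', y') (GTube_ball.2 ⟨?_, ?_⟩)).2 ?_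
      · show |x' - c| < r
        rw [abs_lt]
        constructor <;> linarith
      · exact lt_of_lt_of_le hy' ((min_le_right _ _).trans (min_le_left _ _))
      · show 0 < -1 * (x' - c)
        linarith
  · exact hn y' (lt_of_lt_of_le hy' ((min_le_right _ _).trans (min_le_right _ _)))

theorem tube_left (ho : IsOpen D) (hx : a < x) (hin : ∀ x', a < x' → x' ≤ x → (x', y) ∈ D)
    (hV : VS D 1 (a, y)) :
    ∃ ε > 0, ∀ y', |y' - y| < ε → (∀ x', a < x' → x' ≤ x → (x', y') ∈ D) ∧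
      VS D 1 (a, y') := by
  obtain ⟨r', hr', hn⟩ := hV.near
  obtain ⟨r, hr, hV⟩ := hV
  obtain ⟨ε, hε, he⟩ := GTube_seg (x₀ := min x (a + r / 2)) (x₁ := x) (y := y) ho
    (fun x' h0 h1 => hin x' (lt_of_lt_of_le (lt_min hx (by linarith)) h0) h1)
  refine ⟨min ε (min r r'), lt_min hε (lt_min hr hr'), fun y' hy' => ⟨fun x' h0 h1 => ?_, ?_⟩⟩
  · by_cases h2 : min x (a + r / 2) ≤ x'
    · exact he y' (lt_of_lt_of_le hy' (min_le_left _ _)) x' h2 h1
    · rw [not_le] at h2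
      have h3 : x' < a + r / 2 := lt_of_lt_of_le h2 (min_le_right _ _)
      refine (hV (x', y') (GTube_ball.2 ⟨?_, ?_⟩)).2 ?_
      · show |x' - a| < r
        rw [abs_lt]
        constructor <;> linarith
      · exact lt_of_lt_of_le hy' ((min_le_right _ _).trans (min_le_left _ _))
      · show 0 < 1 * (x' - a)
        linarith
  · exact hn y' (lt_of_lt_of_le hy' ((min_le_right _ _).trans (min_le_right _ _)))

theorem tube_both (ho : IsOpen D) (h : Ch D y a c) (h1 : VS D 1 (a, y))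
    (h2 : VS D (-1) (c, y)) :
    ∃ ε > 0, ∀ y', |y' - y| < ε → Ch D y' a c ∧ VS D 1 (a, y') ∧ VS D (-1) (c, y') := by
  obtain ⟨hac, hin, -, -⟩ := h
  have ha : a < (a + c) / 2 := by linarith
  have hc : (a + c) / 2 < c := by linarith
  obtain ⟨ε₁, hε₁, H₁⟩ := tube_left (x := (a + c) / 2) ho ha
    (fun x' h0 h1 => hin x' h0 (lt_of_le_of_lt h1 hc)) h1
  obtain ⟨ε₂, hε₂, H₂⟩ := tube_right (x := (a + c) / 2) ho hc
    (fun x' h0 h1 => hin x' (lt_of_lt_of_le ha h0) h1) h2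
  refine ⟨min ε₁ ε₂, lt_min hε₁ hε₂, fun y' hy' => ?_⟩
  obtain ⟨A, B⟩ := H₁ y' (lt_of_lt_of_le hy' (min_le_left _ _))
  obtain ⟨A', B'⟩ := H₂ y' (lt_of_lt_of_le hy' (min_le_right _ _))
  refine ⟨⟨hac, fun x' h0 h1 => ?_, B.not_mem, B'.not_mem⟩, B, B'⟩
  rcases le_total x' ((a + c) / 2) with h3 | h3
  · exact A x' h0 h3
  · exact A' x' h3 h1

end

end Pool.Agent.MP4eed4eR.G
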