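import Pool.Agent.Lib.MP_4eed4e_an_RG.GEnds
import Pool.Agent.Lib.MP_4eed4e_an_RG.GTube

/-!
MP_4eed4e_an, project R, block G: chords near a point.

PROOF of `cross`. Let `(a, c)` be the chord through `p` (`exists_ch`). By `ends_type` its right end
is of type `VS D (-1)` or its left end is of type `VS D 1`. In the first case `tube_right` with
`x = (a + p.1) / 2` gives `ε`; `r = min ε (min (p.1 - x) (c - p.1))`. For `q ∈ ball p r` and a
chord `(a', c')` of height `q.2` with `a' < q.1 < c'`, `Ch.eq_right` (with `q.1` and `c`) gives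
`c' = c`. The second case in the same way with `tube_left`, `Ch.eq_left`.
-/

namespace Pool.Agent.MP4eed4eR.G

open Set Metric MeasureTheory

noncomputable section

variable {D : Set (ℝ × ℝ)}

theorem cross (hD : RectDomain D) (hN : NoDiag D) {p : ℝ × ℝ} (hp : p ∈ D) :
    ∃ r > 0, (∃ e, ∀ q ∈ ball p r, ∀ a c, Ch D q.2 a c → a < q.1 → q.1 < c → c = e) ∨
      ∃ e, ∀ q ∈ ball p r, ∀ a c, Ch D q.2 a c → a < q.1 → q.1 < c → a = e := by
  obtain ⟨a, c, hch, ha, hc⟩ := exists_ch hD.isOpen hD.isBounded hp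
  rcases ends_type hD hN hch with hV | hV
  · obtain ⟨ε, hε, ht⟩ := tube_left (x := (c + p.1) / 2) hD.isOpen (by linarith)
      (fun x' h1 h2 => hch.2.1 x' h1 (by linarith)) hV
    refine ⟨min ε (min ((c - p.1) / 2) (p.1 - a)), lt_min hε (lt_min (by linarith)
      (by linarith)), Or.inr ⟨a, fun q hq a' c' hq' h1 h2 => ?_⟩⟩
    rw [mem_ball, Prod.dist_eq, max_lt_iff, Real.dist_eq, Real.dist_eq, lt_min_iff,
      lt_min_iff, lt_min_iff] at hq
    obtain ⟨⟨-, h3, h4⟩, h5, -⟩ := hq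
    obtain ⟨h6, h7⟩ := ht q.2 h5
    rw [abs_lt] at h3 h4
    exact hq'.eq_left h1 h2 (by linarith) (fun x' h8 h9 => h6 x' h8 (by linarith)) h7.not_mem
  · obtain ⟨ε, hε, ht⟩ := tube_right (x := (a + p.1) / 2) hD.isOpen (by linarith)
      (fun x' h1 h2 => hch.2.1 x' (by linarith) h2) hV
    refine ⟨min ε (min ((p.1 - a) / 2) (c - p.1)), lt_min hε (lt_min (by linarith)
      (by linarith)), Or.inl ⟨c, fun q hq a' c' hq' h1 h2 => ?_⟩⟩
    rw [mem_ball, Prod.dist_eq, max_lt_iff, Real.dist_eq, Real.dist_eq, lt_min_iff,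
      lt_min_iff, lt_min_iff] at hq
    obtain ⟨⟨-, h3, h4⟩, h5, -⟩ := hq
    obtain ⟨h6, h7⟩ := ht q.2 h5
    rw [abs_lt] at h3 h4
    exact hq'.eq_right h1 h2 (by linarith) (fun x' h8 h9 => h6 x' (by linarith) h9) h7.not_mem

end

end Pool.Agent.MP4eed4eR.G
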