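import Pool.Agent.Lib.MP_4eed4e_an_R.Defs

/-!
MP_4eed4e_an, project R, block G (combinatorial part): definitions.

THEOREM G (module GMain). Let `S` be a set of reals, bounded below by `v > 0`, with finite
intersection with every `(-∞, M]`, and `A` a real number. Up to translation there are only
finitely many rectilinear domains `D` with `NoDiag D` of area at most `A` all of whose chord
widths, horizontal and vertical, belong to `S`.

PLAN. `XC D`, `YC D` are the (finite) sets of the first coordinates of the vertical sides and of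
the second coordinates of the horizontal sides. At a height `y` not in `YC D` every horizontal
chord `(a, c) × {y}` ends at vertical sides and moves a bit up and down, so `c - a ∈ S`, `a` and
`c` are in `XC D`. `NoDiag D`: in a neighbourhood of a point `p` of `D` the right ends or
the left ends of all horizontal chords through the points are the same (module GCross), so `D`
connected implies that the graph on `XC D` whose edges are the chords is connected (GConn). The
length of a side is `w`, `w - w₁` or `w - w₁ - w₂` with widths of vertical chords (GLen), so it is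
bounded below, and the area bounds the number of the sides (GAreaB). The widths are at most
`A / v` (GAreaA). So `XC D`, `YC D` are, up to translation, contained in a fixed finite set, and
`D` is determined by the finite set of the rectangles of the grid which it contains (GCell).
-/

namespace Pool.Agent.MP4eed4eR.G

open Set Metric MeasureTheory

noncomputable section

/-- No two reflex corners of `D` see each other horizontally or vertically: two different reflex
corners (interior angle `3π / 2`) with equal first or equal second coordinates are never joined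
by an open segment contained in `D`. -/
def NoDiag (D : Set (ℝ × ℝ)) : Prop :=
  ∀ p q : ℝ × ℝ, ReflexPt D p → ReflexPt D q → p ≠ q → (p.1 = q.1 ∨ p.2 = q.2) →
    ¬ openSegment ℝ p q ⊆ D

/-- `s` is a sign. -/
def Sg (s : ℝ) : Prop := s = 1 ∨ s = -1

/-- Near `p` the set `D` is the half plane `0 < s (q.1 - p.1)`. -/
def VS (D : Set (ℝ × ℝ)) (s : ℝ) (p : ℝ × ℝ) : Prop :=
  ∃ r > 0, ∀ q ∈ ball p r, (q ∈ D ↔ 0 < s * (q.1 - p.1))

/-- Near `p` the set `D` is the half plane `0 < t (q.2 - p.2)`. -/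
def HS (D : Set (ℝ × ℝ)) (t : ℝ) (p : ℝ × ℝ) : Prop :=
  ∃ r > 0, ∀ q ∈ ball p r, (q ∈ D ↔ 0 < t * (q.2 - p.2))

/-- Near `p` the set `D` is a quadrant. -/
def CS (D : Set (ℝ × ℝ)) (s t : ℝ) (p : ℝ × ℝ) : Prop :=
  ∃ r > 0, ∀ q ∈ ball p r, (q ∈ D ↔ 0 < s * (q.1 - p.1) ∧ 0 < t * (q.2 - p.2))

/-- Near `p` the set `D` is the complement of a closed quadrant. -/
def US (D : Set (ℝ × ℝ)) (s t : ℝ) (p : ℝ × ℝ) : Prop :=
  ∃ r > 0, ∀ q ∈ ball p r, (q ∈ D ↔ 0 < s * (q.1 - p.1) ∨ 0 < t * (q.2 - p.2))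

/-- The first coordinates of the vertical sides. -/
def XC (D : Set (ℝ × ℝ)) : Set ℝ := {a | ∃ y, VertPt D (a, y)}

/-- The second coordinates of the horizontal sides. -/
def YC (D : Set (ℝ × ℝ)) : Set ℝ := {b | ∃ x, HorPt D (x, b)}

/-- `(a, c) × {y}` is a maximal horizontal segment in `D`. -/
def Ch (D : Set (ℝ × ℝ)) (y a c : ℝ) : Prop :=
  a < c ∧ (∀ x, a < x → x < c → (x, y) ∈ D) ∧ (a, y) ∉ D ∧ (c, y) ∉ D

/-- The image of `D` under the exchange of the coordinates. Vertical chords of `D` are the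
horizontal chords of `swp D`: `Ch (swp D) x b b'`. -/
def swp (D : Set (ℝ × ℝ)) : Set (ℝ × ℝ) := {q | (q.2, q.1) ∈ D}

/-- An open rectangle of width `w` in `D` whose two vertical sides are contained in the
boundary. -/
def HRect (D : Set (ℝ × ℝ)) (a w b₁ b₂ : ℝ) : Prop :=
  0 < w ∧ b₁ < b₂ ∧ Ioo a (a + w) ×ˢ Ioo b₁ b₂ ⊆ D ∧
    (∀ y ∈ Ioo b₁ b₂, ((a, y) : ℝ × ℝ) ∈ frontier D) ∧
    ∀ y ∈ Ioo b₁ b₂, ((a + w, y) : ℝ × ℝ) ∈ frontier D

/-- All widths of the rectangles between two parallel sides belong to `S`. -/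
structure Wd (D : Set (ℝ × ℝ)) (S : Set ℝ) : Prop where
  h : ∀ a w b₁ b₂, HRect D a w b₁ b₂ → w ∈ S
  v : ∀ a w b₁ b₂, HRect (swp D) a w b₁ b₂ → w ∈ S

/-- `{a} × [b, b']` is a vertical side of `D`; `D` is on the side `s`. -/
structure Side (D : Set (ℝ × ℝ)) (a s b b' : ℝ) : Prop where
  sg : Sg s
  lt : b < b'
  vs : ∀ y, b < y → y < b' → VS D s (a, y)
  bot : CS D s 1 (a, b) ∨ US D s (-1) (a, b)
  top : CS D s (-1) (a, b') ∨ US D s 1 (a, b')

/-- The possible lengths of sides. -/
def SL (W : Set ℝ) : Set ℝ :=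
  {u | u ∈ W ∨ (∃ w ∈ W, ∃ w₁ ∈ W, u = w - w₁) ∨ ∃ w ∈ W, ∃ w₁ ∈ W, ∃ w₂ ∈ W, u = w - w₁ - w₂}

/-- The sums of at most `n` elements of `W` and of `-W`. -/
def Sm (W : Set ℝ) : ℕ → Set ℝ
  | 0 => {0}
  | n + 1 => Sm W n ∪ {u | ∃ x ∈ Sm W n, ∃ w ∈ W, u = x + w ∨ u = x - w}

/-- The open rectangles with vertices in `X × Y`. -/
def rects (X Y : Set ℝ) : Set (Set (ℝ × ℝ)) :=
  {R | ∃ x ∈ X, ∃ x' ∈ X, ∃ y ∈ Y, ∃ y' ∈ Y, R = Ioo x x' ×ˢ Ioo y y'}

/-- Translation: `tr c D = D - c`. -/
def tr (c : ℝ × ℝ) (D : Set (ℝ × ℝ)) : Set (ℝ × ℝ) := {q | q + c ∈ D}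

end

end Pool.Agent.MP4eed4eR.G
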