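import Pool.Agent.Lib.MP_4eed4e_an_RG.GPts
import Pool.Agent.Lib.MP_4eed4e_an_RG.GChord

/-!
MP_4eed4e_an, project R, block G: the ends of horizontal chords.

PROOFS.
* `right_end`. `(c, y) ∈ frontier D` (`Ch.front`); four types (`types`). Type `HS` is excluded by
  `hn c` (`horPt_iff`). For type `CS s t` the points `(c - ε, y)`, small `ε > 0`, are in `D`, but
  `t * (y - y) = 0`. For type `US s t` the same points give `0 < s * (-ε)`, so `s = -1`, and then
  `US.hs` gives `HS D t (c + ε, y)`, excluded by `hn`. For type `VS s` the points `(c - ε, y) ∈ D`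
  give `s = -1`.
* `left_end` in the same way (`s = 1`).
* `right_type`, `left_type`: the same four types without the hypothesis `hn`.
* `ends_type`: both ends are not reflex corners at the same time (`NoDiag`).
-/

namespace Pool.Agent.MP4eed4eR.G

open Set Metric MeasureTheory

noncomputable section

variable {D : Set (ℝ × ℝ)} {y a c : ℝ}

private theorem pick {a c r : ℝ} (hac : a < c) (hr : 0 < r) :
    ∃ e, 0 < e ∧ e < r ∧ e < c - a := by
  have h0 : 0 < min r (c - a) := lt_min hr (by linarith)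
  refine ⟨min r (c - a) / 2, by linarith, ?_, ?_⟩
  · linarith [min_le_left r (c - a)]
  · linarith [min_le_right r (c - a)]

private theorem in_ball {x x' y r : ℝ} (hr : 0 < r) (h : |x' - x| < r) :
    ((x', y) : ℝ × ℝ) ∈ ball (x, y) r := by
  rw [mem_ball, Prod.dist_eq, max_lt_iff]
  constructor
  · simpa [Real.dist_eq] using h
  · simpa using hr

theorem right_end (hD : RectDomain D) (h : Ch D y a c) (hn : ∀ x', c ≤ x' → ¬ HorPt D (x', y)) :
    VS D (-1) (c, y) := by
  have hfr := h.front.2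
  obtain ⟨hac, hin, -, -⟩ := h
  have key : ∀ r > 0, ∃ e, 0 < e ∧ e < r ∧ ((c - e, y) : ℝ × ℝ) ∈ ball (c, y) r ∧
      ((c - e, y) : ℝ × ℝ) ∈ D := by
    intro r hr
    obtain ⟨e, he, her, hec⟩ := pick hac hr
    refine ⟨e, he, her, in_ball hr ?_, hin _ (by linarith) (by linarith)⟩
    rw [show c - e - c = -e by ring, abs_neg, abs_of_pos he]
    exact her
  rcases types hD hfr with ⟨s, hs, hv⟩ | ⟨t, ht, hh⟩ | ⟨s, t, hs, ht, hc⟩ | ⟨s, t, hs, ht, hu⟩
  · obtain ⟨r, hr, hb⟩ := id hv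
    obtain ⟨e, he, her, hbe, heD⟩ := key r hr
    have h1 := (hb _ hbe).1 heD
    rcases hs with rfl | rfl
    · simp only at h1
      linarith
    · exact hv
  · exact (hn c le_rfl (horPt_iff.2 ⟨t, ht, hh⟩)).elim
  · obtain ⟨r, hr, hb⟩ := hc
    obtain ⟨e, he, her, hbe, heD⟩ := key r hr
    have h1 := ((hb _ hbe).1 heD).2
    simp at h1
  · obtain ⟨r, hr, hb⟩ := id hu
    obtain ⟨e, he, her, hbe, heD⟩ := key r hr
    have h1 := (hb _ hbe).1 heD
    obtain ⟨r', hr', hh⟩ := hu.hs hs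
    have h2 := hh (r' / 2) (by linarith) (by linarith)
    rcases hs with rfl | rfl
    · rcases h1 with h1 | h1
      · simp only at h1
        linarith
      · simp at h1
    · exact (hn _ (by simp only; linarith) (horPt_iff.2 ⟨t, ht, h2⟩)).elim

theorem right_type (hD : RectDomain D) (h : Ch D y a c) :
    VS D (-1) (c, y) ∨ ReflexPt D (c, y) := by
  have hfr := h.front.2
  obtain ⟨hac, hin, -, -⟩ := h
  have key : ∀ r > 0, ∃ e, 0 < e ∧ e < r ∧ ((c - e, y) : ℝ × ℝ) ∈ ball (c, y) r ∧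
      ((c - e, y) : ℝ × ℝ) ∈ D := by
    intro r hr
    obtain ⟨e, he, her, hec⟩ := pick hac hr
    refine ⟨e, he, her, in_ball hr ?_, hin _ (by linarith) (by linarith)⟩
    rw [show c - e - c = -e by ring, abs_neg, abs_of_pos he]
    exact her
  rcases types hD hfr with ⟨s, hs, hv⟩ | ⟨t, ht, hh⟩ | ⟨s, t, hs, ht, hc⟩ | ⟨s, t, hs, ht, hu⟩
  · left
    obtain ⟨r, hr, hb⟩ := id hv
    obtain ⟨e, he, her, hbe, heD⟩ := key r hr
    have h1 := (hb _ hbe).1 heD
    rcases hs with rfl | rfl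
    · simp only at h1
      linarith
    · exact hv
  · obtain ⟨r, hr, hb⟩ := hh
    obtain ⟨e, he, her, hbe, heD⟩ := key r hr
    have h1 := (hb _ hbe).1 heD
    simp at h1
  · obtain ⟨r, hr, hb⟩ := hc
    obtain ⟨e, he, her, hbe, heD⟩ := key r hr
    have h1 := ((hb _ hbe).1 heD).2
    simp at h1
  · exact Or.inr (reflexPt_iff.2 ⟨s, t, hs, ht, hu⟩)

theorem left_type (hD : RectDomain D) (h : Ch D y a c) :
    VS D 1 (a, y) ∨ ReflexPt D (a, y) := by
  have hfr := h.front.1
  obtain ⟨hac, hin, -, -⟩ := h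
  have key : ∀ r > 0, ∃ e, 0 < e ∧ e < r ∧ ((a + e, y) : ℝ × ℝ) ∈ ball (a, y) r ∧
      ((a + e, y) : ℝ × ℝ) ∈ D := by
    intro r hr
    obtain ⟨e, he, her, hec⟩ := pick hac hr
    refine ⟨e, he, her, in_ball hr ?_, hin _ (by linarith) (by linarith)⟩
    rw [show a + e - a = e by ring, abs_of_pos he]
    exact her
  rcases types hD hfr with ⟨s, hs, hv⟩ | ⟨t, ht, hh⟩ | ⟨s, t, hs, ht, hc⟩ | ⟨s, t, hs, ht, hu⟩
  · left
    obtain ⟨r, hr, hb⟩ := id hv
    obtain ⟨e, he, her, hbe, heD⟩ := key r hr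
    have h1 := (hb _ hbe).1 heD
    rcases hs with rfl | rfl
    · exact hv
    · simp only at h1
      linarith
  · obtain ⟨r, hr, hb⟩ := hh
    obtain ⟨e, he, her, hbe, heD⟩ := key r hr
    have h1 := (hb _ hbe).1 heD
    simp at h1
  · obtain ⟨r, hr, hb⟩ := hc
    obtain ⟨e, he, her, hbe, heD⟩ := key r hr
    have h1 := ((hb _ hbe).1 heD).2
    simp at h1
  · exact Or.inr (reflexPt_iff.2 ⟨s, t, hs, ht, hu⟩)

theorem Ch.not_both (hN : NoDiag D) (h : Ch D y a c) (h1 : ReflexPt D (a, y))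
    (h2 : ReflexPt D (c, y)) : False := by
  refine hN _ _ h1 h2 (fun h3 => ?_) (Or.inr rfl) ?_
  · rw [Prod.mk.injEq] at h3
    exact absurd h3.1 h.1.ne
  · rintro x ⟨u, v, hu, hv, huv, rfl⟩
    have hac := h.1
    have e1 : (u • ((a, y) : ℝ × ℝ) + v • ((c, y) : ℝ × ℝ)) = (u * a + v * c, y) := by
      ext
      · simp
      · simp only [Prod.smul_mk, smul_eq_mul, Prod.mk_add_mk]
        rw [← add_mul, huv, one_mul]
    rw [e1]
    have h4 : u = 1 - v := by linarith
    refine h.2.1 _ ?_ ?_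
    · have : u * a + v * c - a = v * (c - a) := by
        rw [h4]
        ring
      have h5 : 0 < v * (c - a) := mul_pos hv (by linarith)
      linarith
    · have : c - (u * a + v * c) = u * (c - a) := by
        have h6 : v = 1 - u := by linarith
        rw [h6]
        ring
      have h5 : 0 < u * (c - a) := mul_pos hu (by linarith)
      linarith

theorem ends_type (hD : RectDomain D) (hN : NoDiag D) (h : Ch D y a c) :
    VS D 1 (a, y) ∨ VS D (-1) (c, y) := by
  rcases left_type hD h with h1 | h1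
  · exact Or.inl h1
  rcases right_type hD h with h2 | h2
  · exact Or.inr h2
  exact (h.not_both hN h1 h2).elim

theorem left_end (hD : RectDomain D) (h : Ch D y a c) (hn : ∀ x', x' ≤ a → ¬ HorPt D (x', y)) :
    VS D 1 (a, y) := by
  have hfr := h.front.1
  obtain ⟨hac, hin, -, -⟩ := h
  have key : ∀ r > 0, ∃ e, 0 < e ∧ e < r ∧ ((a + e, y) : ℝ × ℝ) ∈ ball (a, y) r ∧
      ((a + e, y) : ℝ × ℝ) ∈ D := by
    intro r hr
    obtain ⟨e, he, her, hec⟩ := pick hac hr
    refine ⟨e, he, her, in_ball hr ?_, hin _ (by linarith) (by linarith)⟩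
    rw [show a + e - a = e by ring, abs_of_pos he]
    exact her
  rcases types hD hfr with ⟨s, hs, hv⟩ | ⟨t, ht, hh⟩ | ⟨s, t, hs, ht, hc⟩ | ⟨s, t, hs, ht, hu⟩
  · obtain ⟨r, hr, hb⟩ := id hv
    obtain ⟨e, he, her, hbe, heD⟩ := key r hr
    have h1 := (hb _ hbe).1 heD
    rcases hs with rfl | rfl
    · exact hv
    · simp only at h1
      linarith
  · exact (hn a le_rfl (horPt_iff.2 ⟨t, ht, hh⟩)).elim
  · obtain ⟨r, hr, hb⟩ := hc
    obtain ⟨e, he, her, hbe, heD⟩ := key r hr
    have h1 := ((hb _ hbe).1 heD).2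
    simp at h1
  · obtain ⟨r, hr, hb⟩ := id hu
    obtain ⟨e, he, her, hbe, heD⟩ := key r hr
    have h1 := (hb _ hbe).1 heD
    obtain ⟨r', hr', hh⟩ := hu.hs hs
    have h2 := hh (r' / 2) (by linarith) (by linarith)
    rcases hs with rfl | rfl
    · exact (hn _ (by simp only; linarith) (horPt_iff.2 ⟨t, ht, h2⟩)).elim
    · rcases h1 with h1 | h1
      · simp only at h1
        linarith
      · simp at h1

end

end Pool.Agent.MP4eed4eR.G
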