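import Pool.Agent.Lib.MP_4eed4e_an_RG.GEnds
import Pool.Agent.Lib.MP_4eed4e_an_RG.GTube
import Pool.Agent.Lib.MP_4eed4e_an_RG.GSwap

/-!
MP_4eed4e_an, project R, block G: vertical segments below and above reflex ends of a vertical side.

PROOF of `below`. Let `r` be the radius of `US D s (-1)` at `(a, b)`, `η = r / 2`. `(a, b - η) ∈
D`. Let `Ch (swp D) a β β''` be the vertical chord through it (`exists_ch` for `swp D` and the
point `(b - η, a)`); `β < b - η` and `β'' = b` (`Ch.eq_right`). By `left_type` for `swp D` its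
lower end is of type `VS (swp D) 1` or a reflex corner; the latter is excluded by `Ch.not_both`
(`NoDiag`), because the upper end `(a, b)` is a reflex corner. `tube_left` for `swp D` with
`x = b - η` gives `ε`: for `|x' - a| < ε` the points `(x', y)`, `β < y ≤ b - η`, are in `D` and
`(x', β)` is not (`VS.not_mem`). For `b - η < y < b`, `|x' - a| < r`, the point `(x', y)` is in the
ball and `0 < -1 * (y - b)`. `above` in the same way with `right_type`, `tube_right`.
-/

namespace Pool.Agent.MP4eed4eR.G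

open Set Metric MeasureTheory

noncomputable section

variable {D : Set (ℝ × ℝ)} {a s b b' : ℝ}

private theorem mem_ball_iff {x y u v r : ℝ} :
    ((x, y) : ℝ × ℝ) ∈ ball (u, v) r ↔ |x - u| < r ∧ |y - v| < r := by
  rw [mem_ball, Prod.dist_eq, Real.dist_eq, Real.dist_eq, max_lt_iff]

theorem below (hD : RectDomain D) (hN : NoDiag D) (h : Side D a s b b')
    (hr : US D s (-1) (a, b)) :
    ∃ β < b, ∃ ε₀ > 0, ∀ x, |x - a| < ε₀ → (x, β) ∉ D ∧ ∀ y, β < y → y < b → (x, y) ∈ D := by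
  obtain ⟨r, hr0, hr⟩ := hr
  have hη : 0 < r / 2 := by linarith
  have hp : ((b - r / 2, a) : ℝ × ℝ) ∈ swp D := by
    change ((a, b - r / 2) : ℝ × ℝ) ∈ D
    refine (hr _ (mem_ball_iff.2 ⟨by simpa using hr0, ?_⟩)).2 (Or.inr ?_)
    · rw [show b - r / 2 - b = -(r / 2) by ring, abs_neg, abs_of_pos hη]
      linarith
    · show 0 < -1 * (b - r / 2 - b)
      linarith
  obtain ⟨β, β', hch, h1, h2⟩ := exists_ch (isOpen_swp hD.isOpen) (isBounded_swp hD.isBounded) hp
  simp only at hch h1 h2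
  have hβ' : β' = b := by
    refine hch.eq_right h1 h2 (by linarith) (fun x' h3 h4 => ?_) fun h3 => ?_
    · change ((a, x') : ℝ × ℝ) ∈ D
      refine (hr _ (mem_ball_iff.2 ⟨by simpa using hr0, ?_⟩)).2 (Or.inr ?_)
      · rw [abs_lt]
        constructor <;> linarith
      · show 0 < -1 * (x' - b)
        linarith
    · have h4 := (hr _ (mem_ball_self hr0)).1 h3
      simp at h4
  rw [hβ'] at hch h2
  have hVS : VS (swp D) 1 (β, a) := by
    rcases left_type (rectDomain_swp hD) hch with h3 | h3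
    · exact h3
    · refine (hch.not_both (noDiag_swp hN) h3 (reflexPt_iff.2 ⟨-1, s, Or.inr rfl, h.sg, ?_⟩)).elim
      exact US_swp.2 ⟨r, hr0, hr⟩
  obtain ⟨ε, hε, htube⟩ := tube_left (isOpen_swp hD.isOpen) h1
    (fun x' h3 h4 => hch.2.1 x' h3 (lt_of_le_of_lt h4 h2)) hVS
  refine ⟨β, by linarith, min ε r, lt_min hε hr0, fun x hx => ?_⟩
  obtain ⟨h3, h4⟩ := htube x (lt_of_lt_of_le hx (min_le_left _ _))
  refine ⟨h4.not_mem, fun y hy1 hy2 => ?_⟩
  by_cases hy : y ≤ b - r / 2
  · exact h3 y hy1 hy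
  · push Not at hy
    refine (hr _ (mem_ball_iff.2 ⟨lt_of_lt_of_le hx (min_le_right _ _), ?_⟩)).2 (Or.inr ?_)
    · rw [abs_lt]
      constructor <;> linarith
    · show 0 < -1 * (y - b)
      linarith

theorem above (hD : RectDomain D) (hN : NoDiag D) (h : Side D a s b b')
    (hr : US D s 1 (a, b')) :
    ∃ β > b', ∃ ε₀ > 0, ∀ x, |x - a| < ε₀ → (x, β) ∉ D ∧ ∀ y, b' < y → y < β → (x, y) ∈ D := by
  obtain ⟨r, hr0, hr⟩ := hr
  have hη : 0 < r / 2 := by linarith
  have hp : ((b' + r / 2, a) : ℝ × ℝ) ∈ swp D := by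
    change ((a, b' + r / 2) : ℝ × ℝ) ∈ D
    refine (hr _ (mem_ball_iff.2 ⟨by simpa using hr0, ?_⟩)).2 (Or.inr ?_)
    · rw [show b' + r / 2 - b' = r / 2 by ring, abs_of_pos hη]
      linarith
    · show 0 < 1 * (b' + r / 2 - b')
      linarith
  obtain ⟨β', β, hch, h1, h2⟩ := exists_ch (isOpen_swp hD.isOpen) (isBounded_swp hD.isBounded) hp
  simp only at hch h1 h2
  have hβ' : β' = b' := by
    refine hch.eq_left h1 h2 (by linarith) (fun x' h3 h4 => ?_) fun h3 => ?_
    · change ((a, x') : ℝ × ℝ) ∈ D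
      refine (hr _ (mem_ball_iff.2 ⟨by simpa using hr0, ?_⟩)).2 (Or.inr ?_)
      · rw [abs_lt]
        constructor <;> linarith
      · show 0 < 1 * (x' - b')
        linarith
    · have h4 := (hr _ (mem_ball_self hr0)).1 h3
      simp at h4
  rw [hβ'] at hch h1
  have hVS : VS (swp D) (-1) (β, a) := by
    rcases right_type (rectDomain_swp hD) hch with h3 | h3
    · exact h3
    · refine (hch.not_both (noDiag_swp hN) (reflexPt_iff.2 ⟨1, s, Or.inl rfl, h.sg, ?_⟩) h3).elim
      exact US_swp.2 ⟨r, hr0, hr⟩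
  obtain ⟨ε, hε, htube⟩ := tube_right (isOpen_swp hD.isOpen) h2
    (fun x' h3 h4 => hch.2.1 x' (lt_of_lt_of_le h1 h3) h4) hVS
  refine ⟨β, by linarith, min ε r, lt_min hε hr0, fun x hx => ?_⟩
  obtain ⟨h3, h4⟩ := htube x (lt_of_lt_of_le hx (min_le_left _ _))
  refine ⟨h4.not_mem, fun y hy1 hy2 => ?_⟩
  by_cases hy : b' + r / 2 ≤ y
  · exact h3 y hy hy2
  · push Not at hy
    refine (hr _ (mem_ball_iff.2 ⟨lt_of_lt_of_le hx (min_le_right _ _), ?_⟩)).2 (Or.inr ?_)
    · rw [abs_lt]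
      constructor <;> linarith
    · show 0 < 1 * (y - b')
      linarith

end

end Pool.Agent.MP4eed4eR.G
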