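import Pool.Agent.Lib.MP_4eed4e_an_RG.GLenA
import Pool.Agent.Lib.MP_4eed4e_an_RG.GLenB
import Pool.Agent.Lib.MP_4eed4e_an_RG.GFin

/-!
MP_4eed4e_an, project R, block G: the lengths of the sides.

PROOF of `side_len`. Take `ε > 0` smaller than the `ε₀` of `side_in` and of `below`, `above` (if
they apply), with `a + s ε`, `a - s ε` not in the finite set `XC D` (`finite_XC`; apply
`exists_not_mem` to the union of the finite sets `{u | a + s * u ∈ XC D}` and `{u | a - s * u ∈ XC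
D}`). Let `x = a + s ε`, `x' = a - s ε`. Lower end: if `CS D s 1 (a, b)` put `β = b`; if `US D s
(-1) (a, b)` take `β` from `below`; in this case `Ch (swp D) x' β b` (with `(x', b) ∉ D`), so `b -
β ∈ W`. Upper end: if `CS D s (-1) (a, b')` put `β' = b'`; else `β'` from `above` and `Ch (swp D)
x' b' β'`, so `β' - b' ∈ W`. In all cases `Ch (swp D) x β β'`, so `β' - β ∈ W`, and `b' - b = (β'
- β) - (b - β) - (β' - b')`.

`SL_finite`: images of finite sets. `SL_lower`: a finite set of reals has a positive lower bound for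
its positive elements.
-/

namespace Pool.Agent.MP4eed4eR.G

open Set Metric MeasureTheory

noncomputable section

variable {D : Set (ℝ × ℝ)} {a s b b' : ℝ}

private theorem GLenC_abs (hs : Sg s) {ε : ℝ} (h0 : 0 < ε) :
    |a + s * ε - a| = ε ∧ |a - s * ε - a| = ε := by
  rcases hs with rfl | rfl
  · refine ⟨?_, ?_⟩
    · rw [one_mul, add_sub_cancel_left, abs_of_pos h0]
    · rw [one_mul, sub_sub_cancel_left, abs_neg, abs_of_pos h0]
  · refine ⟨?_, ?_⟩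
    · rw [add_sub_cancel_left, neg_one_mul, abs_neg, abs_of_pos h0]
    · rw [sub_sub_cancel_left, neg_one_mul, neg_neg, abs_of_pos h0]

/-- the lower end of the side -/
private theorem GLenC_bot (hD : RectDomain D) (hN : NoDiag D) (h : Side D a s b b') :
    ∃ β ≤ b, ∃ ε₁ > 0, ∀ ε, 0 < ε → ε < ε₁ → (a + s * ε, β) ∉ D ∧
      (∀ y, β < y → y ≤ b → (a + s * ε, y) ∈ D) ∧
      (β < b → Ch (swp D) (a - s * ε) β b) := by
  obtain ⟨ε₀, h0, hin⟩ := side_in h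
  rcases h.bot with hc | hu
  · refine ⟨b, le_rfl, ε₀, h0, fun ε he hlt => ⟨(hin ε he hlt).2.1 hc, fun y h1 h2 => ?_,
      fun h1 => absurd h1 (lt_irrefl b)⟩⟩
    exact absurd h1 (not_lt.2 h2)
  · obtain ⟨β, hβ, ε₁, h1, hbel⟩ := below hD hN h hu
    refine ⟨β, hβ.le, min ε₀ ε₁, lt_min h0 h1, fun ε he hlt => ?_⟩
    obtain ⟨-, -, e3, -, -, e6, -⟩ := hin ε he (hlt.trans_le (min_le_left _ _))
    obtain ⟨hab, hab'⟩ := GLenC_abs (a := a) h.sg he
    have hlt1 := hlt.trans_le (min_le_right _ _)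
    obtain ⟨f1, f2⟩ := hbel (a + s * ε) (by rwa [hab])
    obtain ⟨g1, g2⟩ := hbel (a - s * ε) (by rwa [hab'])
    refine ⟨f1, fun y h2 h3 => ?_, fun h2 => ⟨h2, g2, g1, e6 hu⟩⟩
    rcases h3.lt_or_eq with h4 | h4
    · exact f2 y h2 h4
    · rw [h4]
      exact e3 hu

/-- the upper end of the side -/
private theorem GLenC_top (hD : RectDomain D) (hN : NoDiag D) (h : Side D a s b b') :
    ∃ β ≥ b', ∃ ε₁ > 0, ∀ ε, 0 < ε → ε < ε₁ → (a + s * ε, β) ∉ D ∧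
      (∀ y, b' ≤ y → y < β → (a + s * ε, y) ∈ D) ∧
      (b' < β → Ch (swp D) (a - s * ε) b' β) := by
  obtain ⟨ε₀, h0, hin⟩ := side_in h
  rcases h.top with hc | hu
  · refine ⟨b', le_rfl, ε₀, h0, fun ε he hlt => ⟨(hin ε he hlt).2.2.2.1 hc,
      fun y h1 h2 => ?_, fun h1 => absurd h1 (lt_irrefl b')⟩⟩
    exact absurd h2 (not_lt.2 h1)
  · obtain ⟨β, hβ, ε₁, h1, hbel⟩ := above hD hN h hu
    refine ⟨β, le_of_lt hβ, min ε₀ ε₁, lt_min h0 h1, fun ε he hlt => ?_⟩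
    obtain ⟨-, -, -, -, e5, -, e7⟩ := hin ε he (hlt.trans_le (min_le_left _ _))
    obtain ⟨hab, hab'⟩ := GLenC_abs (a := a) h.sg he
    have hlt1 := hlt.trans_le (min_le_right _ _)
    obtain ⟨f1, f2⟩ := hbel (a + s * ε) (by rwa [hab])
    obtain ⟨g1, g2⟩ := hbel (a - s * ε) (by rwa [hab'])
    refine ⟨f1, fun y h2 h3 => ?_, fun h2 => ⟨h2, g2, e7 hu, g1⟩⟩
    rcases h2.lt_or_eq with h4 | h4
    · exact f2 y h4 h3
    · rw [← h4]
      exact e5 hu

private theorem GLenC_eps (hD : RectDomain D) (hs : Sg s) {δ : ℝ} (hδ : 0 < δ) :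
    ∃ ε, 0 < ε ∧ ε < δ ∧ a + s * ε ∉ XC D ∧ a - s * ε ∉ XC D := by
  have hs0 : s ≠ 0 := by
    rcases hs with rfl | rfl <;> norm_num
  have f1 : {u : ℝ | a + s * u ∈ XC D}.Finite := by
    refine (finite_XC hD).preimage fun x _ y _ hxy => ?_
    exact mul_left_cancel₀ hs0 (add_left_cancel hxy)
  have f2 : {u : ℝ | a - s * u ∈ XC D}.Finite := by
    refine (finite_XC hD).preimage fun x _ y _ hxy => ?_
    exact mul_left_cancel₀ hs0 (sub_right_injective hxy)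
  obtain ⟨ε, h1, h2, h3⟩ := exists_not_mem (f1.union f2) hδ
  exact ⟨ε, h1, h2, fun h => h3 (Or.inl h), fun h => h3 (Or.inr h)⟩

theorem side_len (hD : RectDomain D) (hN : NoDiag D) (h : Side D a s b b') {W : Set ℝ}
    (hW : ∀ x β β', x ∉ XC D → Ch (swp D) x β β' → β' - β ∈ W) : b' - b ∈ SL W := by
  obtain ⟨ε₀, h0, hin⟩ := side_in h
  obtain ⟨β, hβ, ε₁, h1, hb⟩ := GLenC_bot hD hN h
  obtain ⟨β', hβ', ε₂, h2, ht⟩ := GLenC_top hD hN h
  obtain ⟨ε, e0, e1, hx, hx'⟩ := GLenC_eps (a := a) hD h.sg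
    (δ := min ε₀ (min ε₁ ε₂)) (lt_min h0 (lt_min h1 h2))
  have e2 : ε < ε₀ := e1.trans_le (min_le_left _ _)
  have e3 : ε < ε₁ := e1.trans_le ((min_le_right _ _).trans (min_le_left _ _))
  have e4 : ε < ε₂ := e1.trans_le ((min_le_right _ _).trans (min_le_right _ _))
  obtain ⟨b1, b2, b3⟩ := hb ε e0 e3
  obtain ⟨t1, t2, t3⟩ := ht ε e0 e4
  have hch : Ch (swp D) (a + s * ε) β β' := by
    refine ⟨hβ.trans_lt (h.lt.trans_le hβ'), fun y h3 h4 => ?_, b1, t1⟩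
    show (a + s * ε, y) ∈ D
    rcases le_or_gt y b with h5 | h5
    · exact b2 y h3 h5
    · rcases lt_or_ge y b' with h6 | h6
      · exact (hin ε e0 e2).1 y h5 h6
      · exact t2 y h6 h4
  have hw : β' - β ∈ W := hW _ _ _ hx hch
  rcases hβ.lt_or_eq with h3 | h3
  · have hw1 : b - β ∈ W := hW _ _ _ hx' (b3 h3)
    rcases hβ'.lt_or_eq with h4 | h4
    · have hw2 : β' - b' ∈ W := hW _ _ _ hx' (t3 h4)
      exact Or.inr (Or.inr ⟨_, hw, _, hw1, _, hw2, by ring⟩)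
    · refine Or.inr (Or.inl ⟨_, hw, _, hw1, ?_⟩)
      rw [h4]
      ring
  · rcases hβ'.lt_or_eq with h4 | h4
    · have hw2 : β' - b' ∈ W := hW _ _ _ hx' (t3 h4)
      refine Or.inr (Or.inl ⟨_, hw, _, hw2, ?_⟩)
      rw [h3]
      ring
    · refine Or.inl ?_
      rw [h4, ← h3]
      exact hw

theorem SL_finite {W : Set ℝ} (hW : W.Finite) : (SL W).Finite := by
  have h2 : (image2 (fun x y : ℝ => x - y) W W).Finite := hW.image2 _ hW
  have h3 : (image2 (fun x y : ℝ => x - y) (image2 (fun x y : ℝ => x - y) W W) W).Finite :=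
    h2.image2 _ hW
  refine (hW.union (h2.union h3)).subset fun u hu => ?_
  rcases hu with h | ⟨w, hw, w₁, hw₁, rfl⟩ | ⟨w, hw, w₁, hw₁, w₂, hw₂, rfl⟩
  · exact Or.inl h
  · exact Or.inr (Or.inl ⟨w, hw, w₁, hw₁, rfl⟩)
  · exact Or.inr (Or.inr ⟨w - w₁, ⟨w, hw, w₁, hw₁, rfl⟩, w₂, hw₂, rfl⟩)

theorem SL_lower {W : Set ℝ} (hW : W.Finite) : ∃ e > 0, ∀ u ∈ SL W, 0 < u → e ≤ u := by
  have hF : (SL W ∩ {u | 0 < u}).Finite := (SL_finite hW).subset inter_subset_left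
  rcases (SL W ∩ {u | 0 < u}).eq_empty_or_nonempty with h | h
  · refine ⟨1, one_pos, fun u hu hu0 => ?_⟩
    have : u ∈ SL W ∩ {u | 0 < u} := ⟨hu, hu0⟩
    rw [h] at this
    exact this.elim
  · obtain ⟨m, hm, hmin⟩ := exists_min_image _ id hF h
    exact ⟨m, hm.2, fun u hu hu0 => hmin u ⟨hu, hu0⟩⟩

end

end Pool.Agent.MP4eed4eR.G
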