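import Pool.Agent.Lib.MP_4eed4e_an_RG.GDefs

/-!
MP_4eed4e_an, project R, block G: connected graphs on finite sets of reals.

PROOFS.
* `steps`. Let `K k = {x ∈ X | x - a₀ ∈ Sm W k}`, increasing in `k`. If `K k = K (k + 1)` then `K
  k` is closed under the steps (if `x ∈ K k` and `x' - x ∈ W` then `x' - a₀ = (x - a₀) + (x' - x)
  ∈ Sm W (k + 1)`), so `K k = X` by `hconn`. Otherwise the cardinality grows. By induction `K k =
  X` or `k + 1 ≤ card (K k)`, so `K n = X` for `n ≥ card X`.
* `Sm_finite`, `Sm_mono`: induction.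
-/

namespace Pool.Agent.MP4eed4eR.G

open Set

noncomputable section

theorem Sm_finite {W : Set ℝ} (hW : W.Finite) (n : ℕ) : (Sm W n).Finite := by
  induction n with
  | zero => exact finite_singleton 0
  | succ n ih =>
    refine ih.union ?_
    have h1 : {u | ∃ x ∈ Sm W n, ∃ w ∈ W, u = x + w ∨ u = x - w} ⊆
        image2 (fun x w => x + w) (Sm W n) W ∪ image2 (fun x w => x - w) (Sm W n) W := by
      rintro u ⟨x, hx, w, hw, h | h⟩
      · exact Or.inl ⟨x, hx, w, hw, h.symm⟩
      · exact Or.inr ⟨x, hx, w, hw, h.symm⟩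
    exact ((ih.image2 _ hW).union (ih.image2 _ hW)).subset h1

theorem Sm_mono {W : Set ℝ} {m n : ℕ} (h : m ≤ n) : Sm W m ⊆ Sm W n := by
  induction n, h using Nat.le_induction with
  | base => exact subset_rfl
  | succ n _ ih => exact ih.trans subset_union_left

theorem steps {X W : Set ℝ} (hX : X.Finite) {a₀ : ℝ} (h0 : a₀ ∈ X)
    (hconn : ∀ K : Set ℝ, a₀ ∈ K → (∀ x ∈ K, ∀ x' ∈ X, (x' - x ∈ W ∨ x - x' ∈ W) → x' ∈ K) →
      X ⊆ K) {n : ℕ} (hn : X.ncard ≤ n) : ∀ x ∈ X, x - a₀ ∈ Sm W n := by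
  classical
  set K : ℕ → Set ℝ := fun k => {x ∈ X | x - a₀ ∈ Sm W k} with hK
  have hKX : ∀ k, K k ⊆ X := fun k x hx => hx.1
  have hKm : ∀ k, K k ⊆ K (k + 1) := fun k x hx => ⟨hx.1, Sm_mono (Nat.le_succ k) hx.2⟩
  have hK0 : ∀ k, a₀ ∈ K k := by
    intro k
    refine ⟨h0, Sm_mono (Nat.zero_le k) ?_⟩
    rw [sub_self]
    exact mem_singleton 0
  have key : ∀ k, X ⊆ K k ∨ k + 1 ≤ (K k).ncard := by
    intro k
    induction k with
    | zero =>
      right
      rw [zero_add, Nat.one_le_iff_ne_zero, ne_eq, ncard_eq_zero (hX.subset (hKX 0))]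
      exact nonempty_iff_ne_empty.1 ⟨a₀, hK0 0⟩
    | succ k ih =>
      rcases ih with ih | ih
      · exact Or.inl (ih.trans (hKm k))
      · by_cases he : K k = K (k + 1)
        · left
          refine (hconn (K k) (hK0 k) ?_).trans (hKm k)
          intro x hx x' hx' hW
          rw [he]
          refine ⟨hx', Or.inr ⟨x - a₀, hx.2, ?_⟩⟩
          rcases hW with hW | hW
          · exact ⟨x' - x, hW, Or.inl (by ring)⟩
          · exact ⟨x - x', hW, Or.inr (by ring)⟩
        · right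
          have h1 : (K k).ncard < (K (k + 1)).ncard :=
            ncard_lt_ncard (ssubset_of_subset_of_ne (hKm k) he) (hX.subset (hKX _))
          omega
  intro x hx
  rcases key n with h | h
  · exact (h hx).2
  · exfalso
    have h1 := ncard_le_ncard (hKX n) hX
    omega

end

end Pool.Agent.MP4eed4eR.G
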