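import Pool.Agent.Lib.MP_4eed4e_an_RG.GDefs

/-!
MP_4eed4e_an, project R, block G: translations.

PROOFS. `tr c D` is the preimage of `D` under the homeomorphism `q ↦ q + c`
(`Homeomorph.addRight`), an isometry, which maps `ball q r` onto `ball (q + c) r`; the four local
types at `q` for `tr c D` are the local types at `q + c` for `D`.
-/

namespace Pool.Agent.MP4eed4eR.G

open Set Metric MeasureTheory

noncomputable section

variable {D : Set (ℝ × ℝ)} {c : ℝ × ℝ}

private theorem loc_tr {p : ℝ × ℝ} {r : ℝ} {P Q : ℝ × ℝ → Prop}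
    (h : ∀ q : ℝ × ℝ, P q ↔ Q (q + c)) :
    (∀ q ∈ ball p r, (q ∈ tr c D ↔ P q)) ↔ ∀ q ∈ ball (p + c) r, (q ∈ D ↔ Q q) := by
  constructor
  · intro H q hq
    have h1 : q - c ∈ ball p r := by
      rw [mem_ball, dist_eq_norm] at hq ⊢
      have h2 : q - c - p = q - (p + c) := by abel
      rwa [h2]
    have h2 := (H _ h1).trans (h _)
    have h3 : q - c ∈ tr c D ↔ q ∈ D := by
      have h4 : q - c ∈ tr c D ↔ q - c + c ∈ D := Iff.rfl
      rw [h4, sub_add_cancel]
    rw [sub_add_cancel] at h2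
    exact h3.symm.trans h2
  · intro H q hq
    have h1 : q + c ∈ ball (p + c) r := by
      rw [mem_ball, dist_add_right]
      exact hq
    exact (H _ h1).trans (h q).symm

theorem vertPt_tr {p : ℝ × ℝ} : VertPt (tr c D) p ↔ VertPt D (p + c) := by
  constructor
  · rintro ⟨r, hr, s, hs, H⟩
    refine ⟨r, hr, s, hs, (loc_tr (P := fun q => 0 < s * (q.1 - p.1)) fun q => ?_).1 H⟩
    rw [Prod.fst_add, Prod.fst_add, add_sub_add_right_eq_sub]
  · rintro ⟨r, hr, s, hs, H⟩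
    refine ⟨r, hr, s, hs, (loc_tr (Q := fun q => 0 < s * (q.1 - (p + c).1)) fun q => ?_).2 H⟩
    rw [Prod.fst_add, Prod.fst_add, add_sub_add_right_eq_sub]

theorem horPt_tr {p : ℝ × ℝ} : HorPt (tr c D) p ↔ HorPt D (p + c) := by
  constructor
  · rintro ⟨r, hr, s, hs, H⟩
    refine ⟨r, hr, s, hs, (loc_tr (P := fun q => 0 < s * (q.2 - p.2)) fun q => ?_).1 H⟩
    rw [Prod.snd_add, Prod.snd_add, add_sub_add_right_eq_sub]
  · rintro ⟨r, hr, s, hs, H⟩
    refine ⟨r, hr, s, hs, (loc_tr (Q := fun q => 0 < s * (q.2 - (p + c).2)) fun q => ?_).2 H⟩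
    rw [Prod.snd_add, Prod.snd_add, add_sub_add_right_eq_sub]

theorem rectDomain_tr (h : RectDomain D) : RectDomain (tr c D) := by
  refine ⟨h.isOpen.preimage (Homeomorph.addRight c).continuous,
    (Homeomorph.addRight c).isConnected_preimage.2 h.isConnected, ?_, ?_⟩
  · obtain ⟨C, hC⟩ := isBounded_iff_forall_norm_le.1 h.isBounded
    refine isBounded_iff_forall_norm_le.2 ⟨C + ‖c‖, fun q hq => ?_⟩
    have h1 : ‖q + c‖ ≤ C := hC _ hq
    have h2 : ‖q‖ ≤ ‖q + c‖ + ‖c‖ := by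
      calc ‖q‖ = ‖(q + c) - c‖ := by rw [add_sub_cancel_right]
        _ ≤ ‖q + c‖ + ‖c‖ := norm_sub_le _ _
    linarith
  · intro p hp
    have hp' : p + c ∈ frontier D := by
      have h1 := (Homeomorph.addRight c).preimage_frontier D
      have h2 : p ∈ (Homeomorph.addRight c) ⁻¹' frontier D := by
        rw [h1]
        exact hp
      exact h2
    rcases h.loc _ hp' with h1 | h1 | h1 | h1
    · exact Or.inl (vertPt_tr.2 h1)
    · exact Or.inr (Or.inl (horPt_tr.2 h1))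
    · refine Or.inr (Or.inr (Or.inl ?_))
      obtain ⟨r, hr, s, t, hs, ht, H⟩ := h1
      refine ⟨r, hr, s, t, hs, ht, (loc_tr (Q := fun q => 0 < s * (q.1 - (p + c).1) ∧
        0 < t * (q.2 - (p + c).2)) fun q => ?_).2 H⟩
      rw [Prod.fst_add, Prod.fst_add, add_sub_add_right_eq_sub, Prod.snd_add, Prod.snd_add,
        add_sub_add_right_eq_sub]
    · refine Or.inr (Or.inr (Or.inr ?_))
      obtain ⟨r, hr, s, t, hs, ht, H⟩ := h1
      refine ⟨r, hr, s, t, hs, ht, (loc_tr (Q := fun q => 0 < s * (q.1 - (p + c).1) ∨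
        0 < t * (q.2 - (p + c).2)) fun q => ?_).2 H⟩
      rw [Prod.fst_add, Prod.fst_add, add_sub_add_right_eq_sub, Prod.snd_add, Prod.snd_add,
        add_sub_add_right_eq_sub]

theorem mem_XC_tr {x : ℝ} : x ∈ XC (tr c D) ↔ x + c.1 ∈ XC D := by
  constructor
  · rintro ⟨y, hy⟩
    exact ⟨y + c.2, vertPt_tr.1 hy⟩
  · rintro ⟨y, hy⟩
    refine ⟨y - c.2, vertPt_tr.2 ?_⟩
    have h1 : ((x, y - c.2) : ℝ × ℝ) + c = (x + c.1, y) := by
      ext <;> simp
    rwa [h1]

theorem mem_YC_tr {y : ℝ} : y ∈ YC (tr c D) ↔ y + c.2 ∈ YC D := by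
  constructor
  · rintro ⟨x, hx⟩
    exact ⟨x + c.1, horPt_tr.1 hx⟩
  · rintro ⟨x, hx⟩
    refine ⟨x - c.1, horPt_tr.2 ?_⟩
    have h1 : ((x - c.1, y) : ℝ × ℝ) + c = (x, y + c.2) := by
      ext <;> simp
    rwa [h1]

theorem image_tr : (fun q => q + c) '' tr c D = D := by
  ext q
  constructor
  · rintro ⟨x, hx, rfl⟩
    exact hx
  · intro hq
    refine ⟨q - c, ?_, sub_add_cancel q c⟩
    have h1 : q - c + c ∈ D := by rwa [sub_add_cancel]
    exact h1

end

end Pool.Agent.MP4eed4eR.G
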