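import Pool.Agent.Lib.MP_4eed4e_an_RG.GConn
import Pool.Agent.Lib.MP_4eed4e_an_RG.GLenC
import Pool.Agent.Lib.MP_4eed4e_an_RG.GAreaA
import Pool.Agent.Lib.MP_4eed4e_an_RG.GAreaB
import Pool.Agent.Lib.MP_4eed4e_an_RG.GStep
import Pool.Agent.Lib.MP_4eed4e_an_RG.GCellB
import Pool.Agent.Lib.MP_4eed4e_an_RG.GTrans

/-!
MP_4eed4e_an, project R, block G: the main theorem of the combinatorial part.

PROOFS.
* `XC_sub`. `W = S ∩ Iic (A / v)` contains all widths of the horizontal chords of heights `y ∉ YC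
  D` and of the vertical chords with `x ∉ XC D` (`width_mem`, `vwidth_mem`, `width_le` for `D` and
  for `swp D`, using `swp_swp`, `XC_swp`, `volume_swp`). All side lengths are in `SL W` and
  positive, so at least `e`. `card_le` gives `(XC D).ncard ≤ n`. `steps` with `XC_conn`: if `K` is
  closed under the steps, apply `XC_conn` to `K ∩ XC D` (for a chord `(a, c)` of height `y ∉ YC D`
  both ends are in `XC D` (`ch_ends_XC`) and `c - a ∈ W`).
* `finite_domains`. `W`, `e` (`SL_lower`), `n = ⌈2 A / (v e)⌉₊`, `X = Sm W n`,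
  `𝓕 = {D' | RectDomain D' ∧ XC D' ⊆ X ∧ YC D' ⊆ X}` (`finite_doms`). For `D` take `a₀ ∈ XC D`,
  `b₀ ∈ YC D` (not empty: `XC_nonempty`, for `YC D` exchange the coordinates), `c = (a₀, b₀)`, and
  `tr c D ∈ 𝓕` by `XC_sub` for `D` and for `swp D` (`rectDomain_swp`, `noDiag_swp`, `wd_swp`).
-/

namespace Pool.Agent.MP4eed4eR.G

open Set Metric MeasureTheory

noncomputable section

variable {D : Set (ℝ × ℝ)}

theorem XC_nonempty (hD : RectDomain D) : (XC D).Nonempty := by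
  obtain ⟨p, hp⟩ := hD.isConnected.nonempty
  obtain ⟨r, hr, hb⟩ := Metric.isOpen_iff.1 hD.isOpen p hp
  obtain ⟨y, h1, h2, h3⟩ := exists_not_mem (finite_YC hD) (lt_add_of_pos_right p.2 hr)
  have hq : ((p.1, y) : ℝ × ℝ) ∈ D := by
    apply hb
    rw [Metric.mem_ball, Prod.dist_eq, max_lt_iff, Real.dist_eq, Real.dist_eq]
    refine ⟨?_, ?_⟩
    · change |p.1 - p.1| < r
      rw [sub_self, abs_zero]
      exact hr
    · change |y - p.2| < r
      rw [abs_of_pos (sub_pos.2 h1)]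
      linarith
  obtain ⟨a, c, h, -, -⟩ := exists_ch hD.isOpen hD.isBounded hq
  exact ⟨a, (ch_ends_XC hD h h3).1⟩

theorem XC_sub (hD : RectDomain D) (hN : NoDiag D) {S : Set ℝ} {v A e : ℝ} (hv : 0 < v)
    (hS : ∀ w ∈ S, v ≤ w) (hA : volume D ≤ ENNReal.ofReal A) (hW : Wd D S) (he : 0 < e)
    (hSL : ∀ u ∈ SL (S ∩ Iic (A / v)), 0 < u → e ≤ u) {n : ℕ} (hn : 2 * A / (v * e) ≤ n)
    {a₀ : ℝ} (h0 : a₀ ∈ XC D) : ∀ a ∈ XC D, a - a₀ ∈ Sm (S ∩ Iic (A / v)) n := by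
  have hWH : ∀ y a c, y ∉ YC D → Ch D y a c → c - a ∈ S ∩ Iic (A / v) := fun y a c hy h =>
    ⟨width_mem hD hW h hy, width_le hD hv hA (fun x β β' hx h' =>
      hS _ (vwidth_mem hD hW h' hx)) h⟩
  have hWV : ∀ x β β', x ∉ XC D → Ch (swp D) x β β' → β' - β ∈ S ∩ Iic (A / v) := by
    intro x β β' hx h
    refine ⟨vwidth_mem hD hW h hx, width_le (rectDomain_swp hD) hv ?_ (fun y a c hy h' => ?_) h⟩
    · rw [volume_swp hD.isOpen.measurableSet]
      exact hA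
    · rw [XC_swp] at hy
      rw [swp_swp] at h'
      exact hS _ (width_mem hD hW h' hy)
  have hcard : (XC D).ncard ≤ n := by
    have h1 := (card_le hD hv he hA (fun y a c hy h => hS _ (hWH y a c hy h).1)
      (fun a s b b' h => hSL _ (side_len hD hN h hWV) (sub_pos.2 h.lt))).trans hn
    exact_mod_cast h1
  refine steps (finite_XC hD) h0 (fun K hK0 hK => ?_) hcard
  have h1 : XC D ⊆ K ∩ XC D := by
    refine XC_conn hD hN (fun y a c hy h => ?_) h0 ⟨hK0, h0⟩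
    obtain ⟨ha, hc⟩ := ch_ends_XC hD h hy
    exact ⟨fun h' => ⟨hK a h'.1 c hc (Or.inl (hWH y a c hy h)), hc⟩,
      fun h' => ⟨hK c h'.1 a ha (Or.inr (hWH y a c hy h)), ha⟩⟩
  exact fun x hx => (h1 hx).1

/-- THEOREM G. -/
theorem finite_domains {S : Set ℝ} {v : ℝ} (A : ℝ) (hv : 0 < v) (hS : ∀ w ∈ S, v ≤ w)
    (hfin : ∀ M, (S ∩ Iic M).Finite) :
    ∃ 𝓕 : Set (Set (ℝ × ℝ)), 𝓕.Finite ∧ ∀ D : Set (ℝ × ℝ), RectDomain D → NoDiag D →
      volume D ≤ ENNReal.ofReal A → Wd D S → ∃ E ∈ 𝓕, ∃ c : ℝ × ℝ, D = (fun q => q + c) '' E := by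
  obtain ⟨e, he, hSL⟩ := SL_lower (hfin (A / v))
  have hX := Sm_finite (hfin (A / v)) ⌈2 * A / (v * e)⌉₊
  refine ⟨_, finite_doms hX hX, ?_⟩
  intro D hD hN hA hW
  obtain ⟨a₀, ha⟩ := XC_nonempty hD
  obtain ⟨b₀, hb⟩ := XC_nonempty (rectDomain_swp hD)
  have hA' : volume (swp D) ≤ ENNReal.ofReal A := by
    rw [volume_swp hD.isOpen.measurableSet]
    exact hA
  refine ⟨tr (a₀, b₀) D, ⟨rectDomain_tr hD, ?_, ?_⟩, (a₀, b₀), image_tr.symm⟩
  · intro x hx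
    have h1 := XC_sub hD hN hv hS hA hW he hSL (Nat.le_ceil _) ha _ (mem_XC_tr.1 hx)
    rwa [add_sub_cancel_right] at h1
  · intro y hy
    have h2 := mem_YC_tr.1 hy
    rw [← XC_swp] at h2
    have h1 := XC_sub (rectDomain_swp hD) (noDiag_swp hN) hv hS hA' (wd_swp hW) he hSL
      (Nat.le_ceil _) hb _ h2
    rwa [add_sub_cancel_right] at h1

end

end Pool.Agent.MP4eed4eR.G
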