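import Pool.Agent.Lib.MP_4eed4e_an_R.OutF
import Pool.Agent.Lib.MP_4eed4e_an_RG.GMain

/-!
MP_4eed4e_an, project R: from the trace asymptotics (block F) and the theorem of block G to the
finiteness of the isospectral classes.
-/

namespace Pool.Agent.MP4eed4eR.G

open Set Metric MeasureTheory Filter Topology

noncomputable section

variable {D : Set (ℝ × ℝ)} {lam : ℕ → ℝ}

/-- The widths which the trace sees. -/
def SSet (lam : ℕ → ℝ) : Set ℝ :=
  {w | 0 < w ∧ ¬Tendsto (fun δ => (hh δ : ℂ) * LamF lam (hh δ) (2 * w)) (𝓝[>] 0) (𝓝 0)}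

theorem wd_SSet (hD : RectDomain D) (hS : HasSpectrum D lam) : Wd D (SSet lam) := by
  constructor
  · rintro a w b₁ b₂ ⟨hw, hb, hin, hl, hr⟩
    exact ⟨hw, K1 hD hS hw hb hin hl hr⟩
  · rintro a w b₁ b₂ ⟨hw, hb, hin, hl, hr⟩
    refine ⟨hw, K1' (b := a) hD hS hw hb ?_ ?_ ?_⟩
    · rintro ⟨x, y⟩ ⟨hx, hy⟩
      exact hin (show ((y, x) : ℝ × ℝ) ∈ Ioo a (a + w) ×ˢ Ioo b₁ b₂ from ⟨hy, hx⟩)
    · intro y hy
      exact frontier_swp.1 (hl y hy)
    · intro y hy
      exact frontier_swp.1 (hr y hy)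

theorem lower_SSet (hD : RectDomain D) (hS : HasSpectrum D lam) :
    ∃ v > 0, (∀ w ∈ SSet lam, v ≤ w) ∧ ∀ M, (SSet lam ∩ Iic M).Finite := by
  obtain ⟨m₀, hm, H⟩ := K2 hD hS
  refine ⟨m₀ / 2, by positivity, ?_, ?_⟩
  · rintro w ⟨hw, hn⟩
    obtain ⟨F, -, hF, hT⟩ := H (2 * w)
    by_contra hlt
    push Not at hlt
    exact hn (by simpa using hT (2 * w) (by linarith) le_rfl fun h => by linarith [hF _ h])
  · intro M
    obtain ⟨F, hfin, -, hT⟩ := H (2 * M)
    refine (hfin.image (fun l => l / 2)).subset ?_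
    rintro w ⟨⟨hw, hn⟩, hM⟩
    have hM' : w ≤ M := hM
    refine ⟨2 * w, ?_, by ring⟩
    by_contra hF
    exact hn (by simpa using hT (2 * w) (by linarith) (by linarith) hF)

theorem area_eq {D' : Set (ℝ × ℝ)} (hD : RectDomain D) (hS : HasSpectrum D lam)
    (hD' : RectDomain D') (hS' : HasSpectrum D' lam) :
    volume D' ≤ ENNReal.ofReal (volume D).toReal := by
  have h : (volume D').toReal = (volume D).toReal :=
    tendsto_nhds_unique (AR hD' hS') (AR hD hS)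
  rw [← h, ENNReal.ofReal_toReal hD'.isBounded.measure_lt_top.ne]

/-- Up to translation there are only finitely many rectilinear domains in which no two reflex
corners see each other horizontally or vertically with a given Dirichlet spectrum. -/
theorem finite_spectrum (lam : ℕ → ℝ) :
    ∃ 𝓕 : Set (Set (ℝ × ℝ)), 𝓕.Finite ∧ ∀ D : Set (ℝ × ℝ), RectDomain D → NoDiag D →
      HasSpectrum D lam → ∃ E ∈ 𝓕, ∃ c : ℝ × ℝ, D = (fun q => q + c) '' E := by
  by_cases hex : ∃ D : Set (ℝ × ℝ), RectDomain D ∧ HasSpectrum D lam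
  · obtain ⟨D₀, hD₀, hS₀⟩ := hex
    obtain ⟨v, hv, hl, hfin⟩ := lower_SSet hD₀ hS₀
    obtain ⟨𝓕, h𝓕, H⟩ := finite_domains (volume D₀).toReal hv hl hfin
    exact ⟨𝓕, h𝓕, fun D hD hN hS => H D hD hN (area_eq hD₀ hS₀ hD hS) (wd_SSet hD hS)⟩
  · exact ⟨∅, finite_empty, fun D hD _ hS => (hex ⟨D, hD, hS⟩).elim⟩

end

end Pool.Agent.MP4eed4eR.G
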