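import Pool.Agent.Lib.MP_4eed4e_an_RG.GDefs

/-!
MP_4eed4e_an, project R, block G: the vertical segments close to a vertical side, on the side of
`D`.

PROOF. Near the lower end: if `r₁` is the radius of the corner `(a, b)`, then for `0 < ε < r₁`, `b
< y < b + r₁` the point `(a + s ε, y)` is in `D` for both types (`s * (s ε) = ε`). Similarly near
the upper end with a radius `r₂`. For `y ∈ [b + r₁ / 2, b' - r₂ / 2]` use the compactness of the
interval and `Side.vs`: every `y₀` has a radius `r` such that `(a + s ε, y) ∈ D` for `0 < ε < r`,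
`|y - y₀| < r`; finitely many suffice (`IsCompact.induction_on` on the statement `∃ ε₀ > 0, ∀ ε, 0
< ε → ε < ε₀ → ∀ y ∈ s, (a + s * ε, y) ∈ D` is convenient). The other statements come from the
radii of the corners: `0 < 1 * (b - b)` is false.
-/

namespace Pool.Agent.MP4eed4eR.G

open Set Metric MeasureTheory

noncomputable section

variable {D : Set (ℝ × ℝ)} {a s b b' : ℝ}

private theorem GLenA_mem {a y₀ r x y : ℝ} (h1 : |x - a| < r) (h2 : |y - y₀| < r) :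
    ((x, y) : ℝ × ℝ) ∈ ball ((a, y₀) : ℝ × ℝ) r := by
  rw [mem_ball, Prod.dist_eq, max_lt_iff, Real.dist_eq, Real.dist_eq]
  exact ⟨h1, h2⟩

private theorem GLenA_abs (hs : Sg s) {ε r : ℝ} (h0 : 0 < ε) (hr : ε < r) :
    |a + s * ε - a| < r ∧ |a - s * ε - a| < r ∧ s * (a + s * ε - a) = ε ∧
      s * (a - s * ε - a) = -ε := by
  rcases hs with h | h
  · subst h
    refine ⟨?_, ?_, by ring, by ring⟩
    · rw [show a + 1 * ε - a = ε by ring, abs_of_pos h0]
      exact hr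
    · rw [show a - 1 * ε - a = -ε by ring, abs_neg, abs_of_pos h0]
      exact hr
  · subst h
    refine ⟨?_, ?_, by ring, by ring⟩
    · rw [show a + -1 * ε - a = -ε by ring, abs_neg, abs_of_pos h0]
      exact hr
    · rw [show a - -1 * ε - a = ε by ring, abs_of_pos h0]
      exact hr

open Filter Topology in
/-- one radius at the corner or at a boundary point -/
private theorem GLenA_ev {P : Prop} {Q : ℝ → Prop}
    (h : P → ∃ r > 0, ∀ ε, 0 < ε → ε < r → Q ε) : ∀ᶠ ε in 𝓝[>] (0 : ℝ), P → Q ε := by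
  by_cases hP : P
  · obtain ⟨r, hr, hQ⟩ := h hP
    filter_upwards [Ioo_mem_nhdsGT hr] with ε hε _
    exact hQ ε hε.1 hε.2
  · exact Eventually.of_forall fun ε h' => (hP h').elim

open Filter Topology in
private theorem GLenA_loc {Q : ℝ × ℝ → Prop} {y₀ r : ℝ} (hs : Sg s) (hr : 0 < r)
    (hD : ∀ q ∈ ball ((a, y₀) : ℝ × ℝ) r, (q ∈ D ↔ Q q))
    (hQ : ∀ ε, 0 < ε → ε < r → ∀ y, |y - y₀| < r → b < y → y < b' → Q (a + s * ε, y)) :
    ∃ t ∈ 𝓝[Icc b b'] y₀, ∀ᶠ ε in 𝓝[>] (0 : ℝ), ∀ y ∈ t, b < y → y < b' →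
      (a + s * ε, y) ∈ D := by
  refine ⟨ball y₀ r, mem_nhdsWithin_of_mem_nhds (ball_mem_nhds y₀ hr), ?_⟩
  filter_upwards [Ioo_mem_nhdsGT hr] with ε hε y hy h1 h2
  have hy' : |y - y₀| < r := by
    rw [← Real.dist_eq]
    exact hy
  exact (hD _ (GLenA_mem (GLenA_abs hs hε.1 hε.2).1 hy')).2 (hQ ε hε.1 hε.2 y hy' h1 h2)

open Filter Topology in
private theorem GLenA_main (h : Side D a s b b') :
    ∀ᶠ ε in 𝓝[>] (0 : ℝ), ∀ y ∈ Icc b b', b < y → y < b' → (a + s * ε, y) ∈ D := by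
  have hs := h.sg
  refine (isCompact_Icc (a := b) (b := b')).induction_on
    (p := fun t => ∀ᶠ ε in 𝓝[>] (0 : ℝ), ∀ y ∈ t, b < y → y < b' → (a + s * ε, y) ∈ D)
    (Eventually.of_forall fun ε y hy => absurd hy (notMem_empty y))
    (fun t t' htt ht' => ht'.mono fun ε hε y hy => hε y (htt hy))
    (fun t t' ht ht' => ?_) fun y₀ hy₀ => ?_
  · filter_upwards [ht, ht'] with ε h1 h2 y hy
    rcases hy with hy | hy
    · exact h1 y hy
    · exact h2 y hy
  · rcases eq_or_lt_of_le hy₀.1 with hb | hb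
    · subst hb
      rcases h.bot with ⟨r, hr, hD⟩ | ⟨r, hr, hD⟩
      · refine GLenA_loc hs hr hD fun ε h0 h1 y _ h2 _ => ?_
        have h3 := (GLenA_abs (a := a) hs h0 h1).2.2.1
        exact ⟨by rw [h3]; exact h0, by rw [one_mul]; exact sub_pos.2 h2⟩
      · refine GLenA_loc hs hr hD fun ε h0 h1 y _ h2 _ => ?_
        have h3 := (GLenA_abs (a := a) hs h0 h1).2.2.1
        exact Or.inl (by rw [h3]; exact h0)
    · rcases eq_or_lt_of_le hy₀.2 with hb' | hb'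
      · subst hb'
        rcases h.top with ⟨r, hr, hD⟩ | ⟨r, hr, hD⟩
        · refine GLenA_loc hs hr hD fun ε h0 h1 y _ _ h2 => ?_
          have h3 := (GLenA_abs (a := a) hs h0 h1).2.2.1
          exact ⟨by rw [h3]; exact h0, by
            have : y - y₀ < 0 := sub_neg.2 h2
            linarith⟩
        · refine GLenA_loc hs hr hD fun ε h0 h1 y _ _ h2 => ?_
          have h3 := (GLenA_abs (a := a) hs h0 h1).2.2.1
          exact Or.inl (by rw [h3]; exact h0)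
      · obtain ⟨r, hr, hD⟩ := h.vs y₀ hb hb'
        refine GLenA_loc hs hr hD fun ε h0 h1 y _ _ h2 => ?_
        have h3 := (GLenA_abs (a := a) hs h0 h1).2.2.1
        show 0 < s * (a + s * ε - a)
        rw [h3]
        exact h0

theorem side_in (h : Side D a s b b') :
    ∃ ε₀ > 0, ∀ ε, 0 < ε → ε < ε₀ → (∀ y, b < y → y < b' → (a + s * ε, y) ∈ D) ∧
      (CS D s 1 (a, b) → (a + s * ε, b) ∉ D) ∧ (US D s (-1) (a, b) → (a + s * ε, b) ∈ D) ∧
      (CS D s (-1) (a, b') → (a + s * ε, b') ∉ D) ∧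
      (US D s 1 (a, b') → (a + s * ε, b') ∈ D) ∧
      (US D s (-1) (a, b) → (a - s * ε, b) ∉ D) ∧
      (US D s 1 (a, b') → (a - s * ε, b') ∉ D) := by
  have hs := h.sg
  have hz : ∀ {r : ℝ} (y : ℝ), 0 < r → |y - y| < r := fun y hr => by
    rw [sub_self, abs_zero]
    exact hr
  have e0 := GLenA_main h
  have e1 := GLenA_ev (P := CS D s 1 (a, b)) (Q := fun ε => (a + s * ε, b) ∉ D) (by
    rintro ⟨r, hr, hD⟩
    refine ⟨r, hr, fun ε h0 h1 hm => ?_⟩
    have h2 := ((hD _ (GLenA_mem (GLenA_abs hs h0 h1).1 (hz b hr))).1 hm).2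
    simp at h2)
  have e2 := GLenA_ev (P := US D s (-1) (a, b)) (Q := fun ε => (a + s * ε, b) ∈ D) (by
    rintro ⟨r, hr, hD⟩
    refine ⟨r, hr, fun ε h0 h1 => ?_⟩
    refine (hD _ (GLenA_mem (GLenA_abs hs h0 h1).1 (hz b hr))).2 (Or.inl ?_)
    show 0 < s * (a + s * ε - a)
    rw [(GLenA_abs (a := a) hs h0 h1).2.2.1]
    exact h0)
  have e3 := GLenA_ev (P := CS D s (-1) (a, b')) (Q := fun ε => (a + s * ε, b') ∉ D) (by
    rintro ⟨r, hr, hD⟩
    refine ⟨r, hr, fun ε h0 h1 hm => ?_⟩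
    have h2 := ((hD _ (GLenA_mem (GLenA_abs hs h0 h1).1 (hz b' hr))).1 hm).2
    simp at h2)
  have e4 := GLenA_ev (P := US D s 1 (a, b')) (Q := fun ε => (a + s * ε, b') ∈ D) (by
    rintro ⟨r, hr, hD⟩
    refine ⟨r, hr, fun ε h0 h1 => ?_⟩
    refine (hD _ (GLenA_mem (GLenA_abs hs h0 h1).1 (hz b' hr))).2 (Or.inl ?_)
    show 0 < s * (a + s * ε - a)
    rw [(GLenA_abs (a := a) hs h0 h1).2.2.1]
    exact h0)
  have e5 := GLenA_ev (P := US D s (-1) (a, b)) (Q := fun ε => (a - s * ε, b) ∉ D) (by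
    rintro ⟨r, hr, hD⟩
    refine ⟨r, hr, fun ε h0 h1 hm => ?_⟩
    rcases (hD _ (GLenA_mem (GLenA_abs hs h0 h1).2.1 (hz b hr))).1 hm with h2 | h2
    · change 0 < s * (a - s * ε - a) at h2
      rw [(GLenA_abs (a := a) hs h0 h1).2.2.2] at h2
      linarith
    · simp at h2)
  have e6 := GLenA_ev (P := US D s 1 (a, b')) (Q := fun ε => (a - s * ε, b') ∉ D) (by
    rintro ⟨r, hr, hD⟩
    refine ⟨r, hr, fun ε h0 h1 hm => ?_⟩
    rcases (hD _ (GLenA_mem (GLenA_abs hs h0 h1).2.1 (hz b' hr))).1 hm with h2 | h2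
    · change 0 < s * (a - s * ε - a) at h2
      rw [(GLenA_abs (a := a) hs h0 h1).2.2.2] at h2
      linarith
    · simp at h2)
  have e := e0.and (e1.and (e2.and (e3.and (e4.and (e5.and e6)))))
  obtain ⟨ε₀, h0, hε⟩ := mem_nhdsGT_iff_exists_Ioo_subset.1 e
  refine ⟨ε₀, h0, fun ε h1 h2 => ?_⟩
  obtain ⟨f0, f1, f2, f3, f4, f5, f6⟩ := hε ⟨h1, h2⟩
  exact ⟨fun y h3 h4 => f0 y ⟨h3.le, h4.le⟩ h3 h4, f1, f2, f3, f4, f5, f6⟩

end

end Pool.Agent.MP4eed4eR.G
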