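import Pool.Agent.Lib.MP_4eed4e_an_RG.GDefs

/-!
MP_4eed4e_an, project R, block G: the local types of the boundary points.

PROOFS. Everything follows from the definitions; balls of `ℝ × ℝ` are open squares
(`Prod.dist_eq`, `Real.dist_eq`). For the `near` statements take `r / 2` and use that the ball of
radius `r / 2` around the new point is contained in `ball p r`. For `CS.vs` note that `0 < t *
(q.2 - p.2)` for `q` in the ball of radius `ε / 2` around `(p.1, p.2 + t * ε)` (`t * t = 1`) and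
for `US.vs` that `¬ 0 < t * (q.2 - p.2)` near `(p.1, p.2 - t * ε)`. `VS.front`: `p ∉ D` and `p +
(s ε, 0) ∈ D` for small `ε > 0`, so `p ∈ closure D \ interior D`.
-/

namespace Pool.Agent.MP4eed4eR.G

open Set Metric MeasureTheory

noncomputable section

variable {D : Set (ℝ × ℝ)} {s t s' t' : ℝ} {p : ℝ × ℝ}

private theorem GPts_ball {q p : ℝ × ℝ} {r : ℝ} :
    q ∈ ball p r ↔ |q.1 - p.1| < r ∧ |q.2 - p.2| < r := by
  rw [mem_ball, Prod.dist_eq, max_lt_iff, Real.dist_eq, Real.dist_eq]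

private theorem GPts_abs {s a e : ℝ} (hs : Sg s) (h : |a| < e) : |s * a| < e := by
  rcases hs with rfl | rfl
  · rwa [one_mul]
  · rwa [neg_one_mul, abs_neg]

private theorem GPts_sq {s : ℝ} (hs : Sg s) : s * s = 1 := by
  rcases hs with rfl | rfl <;> norm_num

theorem vertPt_iff : VertPt D p ↔ ∃ s, Sg s ∧ VS D s p := by
  constructor
  · rintro ⟨r, hr, s, hs, h⟩
    exact ⟨s, hs, r, hr, h⟩
  · rintro ⟨s, hs, r, hr, h⟩
    exact ⟨r, hr, s, hs, h⟩

theorem horPt_iff : HorPt D p ↔ ∃ t, Sg t ∧ HS D t p := by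
  constructor
  · rintro ⟨r, hr, s, hs, h⟩
    exact ⟨s, hs, r, hr, h⟩
  · rintro ⟨s, hs, r, hr, h⟩
    exact ⟨r, hr, s, hs, h⟩

theorem convexPt_iff : ConvexPt D p ↔ ∃ s t, Sg s ∧ Sg t ∧ CS D s t p := by
  constructor
  · rintro ⟨r, hr, s, t, hs, ht, h⟩
    exact ⟨s, t, hs, ht, r, hr, h⟩
  · rintro ⟨s, t, hs, ht, r, hr, h⟩
    exact ⟨r, hr, s, t, hs, ht, h⟩

theorem reflexPt_iff : ReflexPt D p ↔ ∃ s t, Sg s ∧ Sg t ∧ US D s t p := by
  constructor
  · rintro ⟨r, hr, s, t, hs, ht, h⟩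
    exact ⟨s, t, hs, ht, r, hr, h⟩
  · rintro ⟨s, t, hs, ht, r, hr, h⟩
    exact ⟨r, hr, s, t, hs, ht, h⟩

/-- The four types of boundary points. -/
theorem types (hD : RectDomain D) (hp : p ∈ frontier D) :
    (∃ s, Sg s ∧ VS D s p) ∨ (∃ t, Sg t ∧ HS D t p) ∨ (∃ s t, Sg s ∧ Sg t ∧ CS D s t p) ∨
      ∃ s t, Sg s ∧ Sg t ∧ US D s t p := by
  rcases hD.loc p hp with h | h | h | h
  · exact Or.inl (vertPt_iff.1 h)
  · exact Or.inr (Or.inl (horPt_iff.1 h))
  · exact Or.inr (Or.inr (Or.inl (convexPt_iff.1 h)))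
  · exact Or.inr (Or.inr (Or.inr (reflexPt_iff.1 h)))

theorem VS.not_mem (h : VS D s p) : p ∉ D := by
  obtain ⟨r, hr, h⟩ := h
  intro hp
  have h1 := (h p (mem_ball_self hr)).1 hp
  rw [sub_self, mul_zero] at h1
  exact lt_irrefl _ h1

theorem HS.not_mem (h : HS D t p) : p ∉ D := by
  obtain ⟨r, hr, h⟩ := h
  intro hp
  have h1 := (h p (mem_ball_self hr)).1 hp
  rw [sub_self, mul_zero] at h1
  exact lt_irrefl _ h1

theorem VS.front (hs : Sg s) (h : VS D s p) : p ∈ frontier D := by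
  have h0 := h.not_mem
  obtain ⟨r, hr, h⟩ := h
  refine ⟨Metric.mem_closure_iff.2 fun ε hε => ?_, fun h1 => h0 (interior_subset h1)⟩
  have hδ : 0 < min r ε / 2 := by positivity
  have hd : |s * (min r ε / 2)| = min r ε / 2 := by
    rcases hs with rfl | rfl
    · rw [one_mul, abs_of_pos hδ]
    · rw [neg_one_mul, abs_neg, abs_of_pos hδ]
  have h1 := min_le_left r ε
  have h2 := min_le_right r ε
  refine ⟨(p.1 + s * (min r ε / 2), p.2), (h _ (GPts_ball.2 ⟨?_, ?_⟩)).2 ?_, ?_⟩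
  · simp only [add_sub_cancel_left]
    rw [hd]
    linarith
  · simpa using hr
  · simp only [add_sub_cancel_left]
    rw [← mul_assoc, GPts_sq hs, one_mul]
    exact hδ
  · rw [dist_comm, ← mem_ball, GPts_ball]
    constructor
    · simp only [add_sub_cancel_left]
      rw [hd]
      linarith
    · simpa using hε

theorem HS.front (ht : Sg t) (h : HS D t p) : p ∈ frontier D := by
  have h0 := h.not_mem
  obtain ⟨r, hr, h⟩ := h
  refine ⟨Metric.mem_closure_iff.2 fun ε hε => ?_, fun h1 => h0 (interior_subset h1)⟩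
  have hδ : 0 < min r ε / 2 := by positivity
  have hd : |t * (min r ε / 2)| = min r ε / 2 := by
    rcases ht with rfl | rfl
    · rw [one_mul, abs_of_pos hδ]
    · rw [neg_one_mul, abs_neg, abs_of_pos hδ]
  have h1 := min_le_left r ε
  have h2 := min_le_right r ε
  refine ⟨(p.1, p.2 + t * (min r ε / 2)), (h _ (GPts_ball.2 ⟨?_, ?_⟩)).2 ?_, ?_⟩
  · simpa using hr
  · simp only [add_sub_cancel_left]
    rw [hd]
    linarith
  · simp only [add_sub_cancel_left]
    rw [← mul_assoc, GPts_sq ht, one_mul]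
    exact hδ
  · rw [dist_comm, ← mem_ball, GPts_ball]
    constructor
    · simpa using hε
    · simp only [add_sub_cancel_left]
      rw [hd]
      linarith

theorem VS.sgn_eq (hs : Sg s) (hs' : Sg s') (h : VS D s p) (h' : VS D s' p) : s = s' := by
  obtain ⟨r, hr, h⟩ := h
  obtain ⟨r', hr', h'⟩ := h'
  have hδ : 0 < min r r' / 2 := by positivity
  have h1 := min_le_left r r'
  have h2 := min_le_right r r'
  have h3 := h (p.1 + min r r' / 2, p.2) (GPts_ball.2 ⟨by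
    simp only [add_sub_cancel_left]
    rw [abs_of_pos hδ]
    linarith, by simpa using hr⟩)
  have h4 := h' (p.1 + min r r' / 2, p.2) (GPts_ball.2 ⟨by
    simp only [add_sub_cancel_left]
    rw [abs_of_pos hδ]
    linarith, by simpa using hr'⟩)
  simp only [add_sub_cancel_left] at h3 h4
  have h5 := h3.symm.trans h4
  rcases hs with rfl | rfl <;> rcases hs' with rfl | rfl
  · rfl
  · exfalso
    have := h5.1 (by linarith)
    linarith
  · exfalso
    have := h5.2 (by linarith)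
    linarith
  · rfl

theorem VS.not_HS (hs : Sg s) (ht : Sg t) (h : VS D s p) (h' : HS D t p) : False := by
  have _ := ht
  obtain ⟨r, hr, h⟩ := h
  obtain ⟨r', hr', h'⟩ := h'
  have hδ : 0 < min r r' / 2 := by positivity
  have h1 := min_le_left r r'
  have h2 := min_le_right r r'
  have hd : |s * (min r r' / 2)| = min r r' / 2 := by
    rcases hs with rfl | rfl
    · rw [one_mul, abs_of_pos hδ]
    · rw [neg_one_mul, abs_neg, abs_of_pos hδ]
  have h3 := h (p.1 + s * (min r r' / 2), p.2) (GPts_ball.2 ⟨by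
    simp only [add_sub_cancel_left]
    rw [hd]
    linarith, by simpa using hr⟩)
  have h4 := h' (p.1 + s * (min r r' / 2), p.2) (GPts_ball.2 ⟨by
    simp only [add_sub_cancel_left]
    rw [hd]
    linarith, by simpa using hr'⟩)
  simp only [add_sub_cancel_left, sub_self, mul_zero] at h3 h4
  have h5 := h4.1 (h3.2 (by rw [← mul_assoc, GPts_sq hs, one_mul]; exact hδ))
  exact lt_irrefl _ h5

theorem VS.near (h : VS D s p) : ∃ r > 0, ∀ y, |y - p.2| < r → VS D s (p.1, y) := by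
  obtain ⟨r, hr, h⟩ := h
  refine ⟨r / 2, by positivity, fun y hy => ⟨r / 2, by positivity, fun q hq => h q ?_⟩⟩
  rw [GPts_ball] at hq ⊢
  simp only at hq
  obtain ⟨h1, h2⟩ := hq
  rw [abs_lt] at h1 h2 hy
  constructor <;> rw [abs_lt] <;> constructor <;> linarith

theorem HS.near (h : HS D t p) : ∃ r > 0, ∀ x, |x - p.1| < r → HS D t (x, p.2) := by
  obtain ⟨r, hr, h⟩ := h
  refine ⟨r / 2, by positivity, fun y hy => ⟨r / 2, by positivity, fun q hq => h q ?_⟩⟩
  rw [GPts_ball] at hq ⊢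
  simp only at hq
  obtain ⟨h1, h2⟩ := hq
  rw [abs_lt] at h1 h2 hy
  constructor <;> rw [abs_lt] <;> constructor <;> linarith

theorem CS.vs (ht : Sg t) (h : CS D s t p) :
    ∃ r > 0, ∀ ε, 0 < ε → ε < r → VS D s (p.1, p.2 + t * ε) := by
  obtain ⟨r, hr, h⟩ := h
  refine ⟨r / 2, by positivity, fun ε hε hεr => ⟨ε / 2, by positivity, fun q hq => ?_⟩⟩
  rw [GPts_ball] at hq
  simp only at hq
  obtain ⟨h1, h2⟩ := hq
  have h3 := GPts_abs ht h2
  have h4 : t * (q.2 - (p.2 + t * ε)) = t * (q.2 - p.2) - ε := by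
    have := GPts_sq ht
    linear_combination -ε * this
  rw [h4, abs_lt] at h3
  have h5 : 0 < t * (q.2 - p.2) := by linarith
  have h6 : |t * (q.2 - p.2)| < r := by
    rw [abs_of_pos h5]
    linarith
  have h7 : |q.2 - p.2| < r := by
    have := GPts_abs ht h6
    rwa [← mul_assoc, GPts_sq ht, one_mul] at this
  rw [h q (GPts_ball.2 ⟨by linarith, h7⟩)]
  exact ⟨fun h8 => h8.1, fun h8 => ⟨h8, h5⟩⟩

theorem CS.hs (hs : Sg s) (h : CS D s t p) :
    ∃ r > 0, ∀ ε, 0 < ε → ε < r → HS D t (p.1 + s * ε, p.2) := by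
  obtain ⟨r, hr, h⟩ := h
  refine ⟨r / 2, by positivity, fun ε hε hεr => ⟨ε / 2, by positivity, fun q hq => ?_⟩⟩
  rw [GPts_ball] at hq
  simp only at hq
  obtain ⟨h2, h1⟩ := hq
  have h3 := GPts_abs hs h2
  have h4 : s * (q.1 - (p.1 + s * ε)) = s * (q.1 - p.1) - ε := by
    have := GPts_sq hs
    linear_combination -ε * this
  rw [h4, abs_lt] at h3
  have h5 : 0 < s * (q.1 - p.1) := by linarith
  have h6 : |s * (q.1 - p.1)| < r := by
    rw [abs_of_pos h5]
    linarith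
  have h7 : |q.1 - p.1| < r := by
    have := GPts_abs hs h6
    rwa [← mul_assoc, GPts_sq hs, one_mul] at this
  rw [h q (GPts_ball.2 ⟨h7, by linarith⟩)]
  exact ⟨fun h8 => h8.2, fun h8 => ⟨h5, h8⟩⟩

theorem US.vs (ht : Sg t) (h : US D s t p) :
    ∃ r > 0, ∀ ε, 0 < ε → ε < r → VS D s (p.1, p.2 - t * ε) := by
  obtain ⟨r, hr, h⟩ := h
  refine ⟨r / 2, by positivity, fun ε hε hεr => ⟨ε / 2, by positivity, fun q hq => ?_⟩⟩
  rw [GPts_ball] at hq
  simp only at hq
  obtain ⟨h1, h2⟩ := hq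
  have h3 := GPts_abs ht h2
  have h4 : t * (q.2 - (p.2 - t * ε)) = t * (q.2 - p.2) + ε := by
    have := GPts_sq ht
    linear_combination ε * this
  rw [h4, abs_lt] at h3
  have h5 : t * (q.2 - p.2) < 0 := by linarith
  have h6 : |t * (q.2 - p.2)| < r := by
    rw [abs_of_neg h5]
    linarith
  have h7 : |q.2 - p.2| < r := by
    have := GPts_abs ht h6
    rwa [← mul_assoc, GPts_sq ht, one_mul] at this
  rw [h q (GPts_ball.2 ⟨by linarith, h7⟩)]
  exact ⟨fun h8 => h8.resolve_right (not_lt.2 h5.le), fun h8 => Or.inl h8⟩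

theorem US.hs (hs : Sg s) (h : US D s t p) :
    ∃ r > 0, ∀ ε, 0 < ε → ε < r → HS D t (p.1 - s * ε, p.2) := by
  obtain ⟨r, hr, h⟩ := h
  refine ⟨r / 2, by positivity, fun ε hε hεr => ⟨ε / 2, by positivity, fun q hq => ?_⟩⟩
  rw [GPts_ball] at hq
  simp only at hq
  obtain ⟨h2, h1⟩ := hq
  have h3 := GPts_abs hs h2
  have h4 : s * (q.1 - (p.1 - s * ε)) = s * (q.1 - p.1) + ε := by
    have := GPts_sq hs
    linear_combination ε * this
  rw [h4, abs_lt] at h3
  have h5 : s * (q.1 - p.1) < 0 := by linarith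
  have h6 : |s * (q.1 - p.1)| < r := by
    rw [abs_of_neg h5]
    linarith
  have h7 : |q.1 - p.1| < r := by
    have := GPts_abs hs h6
    rwa [← mul_assoc, GPts_sq hs, one_mul] at this
  rw [h q (GPts_ball.2 ⟨h7, by linarith⟩)]
  exact ⟨fun h8 => h8.resolve_left (not_lt.2 h5.le), fun h8 => Or.inr h8⟩

theorem CS.coord (hs : Sg s) (ht : Sg t) (h : CS D s t p) : p.1 ∈ XC D ∧ p.2 ∈ YC D := by
  obtain ⟨r, hr, h1⟩ := h.vs ht
  obtain ⟨r', hr', h2⟩ := h.hs hs
  exact ⟨⟨_, vertPt_iff.2 ⟨s, hs, h1 (r / 2) (by positivity) (by linarith)⟩⟩,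
    ⟨_, horPt_iff.2 ⟨t, ht, h2 (r' / 2) (by positivity) (by linarith)⟩⟩⟩

theorem US.coord (hs : Sg s) (ht : Sg t) (h : US D s t p) : p.1 ∈ XC D ∧ p.2 ∈ YC D := by
  obtain ⟨r, hr, h1⟩ := h.vs ht
  obtain ⟨r', hr', h2⟩ := h.hs hs
  exact ⟨⟨_, vertPt_iff.2 ⟨s, hs, h1 (r / 2) (by positivity) (by linarith)⟩⟩,
    ⟨_, horPt_iff.2 ⟨t, ht, h2 (r' / 2) (by positivity) (by linarith)⟩⟩⟩

/-- The boundary is contained in the grid. -/
theorem frontier_grid (hD : RectDomain D) (hp : p ∈ frontier D) : p.1 ∈ XC D ∨ p.2 ∈ YC D := by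
  rcases types hD hp with ⟨s, hs, h⟩ | ⟨t, ht, h⟩ | ⟨s, t, hs, ht, h⟩ | ⟨s, t, hs, ht, h⟩
  · exact Or.inl ⟨p.2, vertPt_iff.2 ⟨s, hs, h⟩⟩
  · exact Or.inr ⟨p.1, horPt_iff.2 ⟨t, ht, h⟩⟩
  · exact Or.inl (h.coord hs ht).1
  · exact Or.inl (h.coord hs ht).1

end

end Pool.Agent.MP4eed4eR.G
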