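import Pool.Agent.Lib.MP_4eed4e_an_RG.GPts

/-!
MP_4eed4e_an, project R, block G: the maximal vertical side through a point is an interval.

PROOFS.
* `exists_interval`. Let `VertPt D (a, y₀)`. The set `{y | VertPt D (a, y)}` is open (`VS.near`) and
  bounded (`VS.front`, `D` bounded). Let `b` be the infimum of the numbers `t < y₀` such that
  `VertPt D (a, y)` for `t < y ≤ y₀`, and `b'` the corresponding supremum.
* `sgn_const`. The sign is locally constant on the interval (`VS.near`, `VS.sgn_eq`), the interval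
  is connected (`isPreconnected_Ioo`).
-/

namespace Pool.Agent.MP4eed4eR.G

open Set Metric MeasureTheory

noncomputable section

variable {D : Set (ℝ × ℝ)} {a y : ℝ}

private theorem sgA_near (hy : VertPt D (a, y)) :
    ∃ r > 0, ∀ y', |y' - y| < r → VertPt D (a, y') := by
  obtain ⟨s, hs, h⟩ := vertPt_iff.1 hy
  obtain ⟨r, hr, h'⟩ := h.near
  exact ⟨r, hr, fun y' hy' => vertPt_iff.2 ⟨s, hs, h' y' hy'⟩⟩

theorem exists_interval (hD : RectDomain D) (ha : a ∈ XC D) :
    ∃ b b', b < b' ∧ (∀ y, b < y → y < b' → VertPt D (a, y)) ∧ ¬ VertPt D (a, b) ∧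
      ¬ VertPt D (a, b') := by
  obtain ⟨y₀, hy₀⟩ := ha
  obtain ⟨R, hR⟩ := hD.isBounded.closure.subset_closedBall (0 : ℝ × ℝ)
  have hbd : ∀ y, VertPt D (a, y) → |y| ≤ R := fun y hy => by
    obtain ⟨s, hs, h⟩ := vertPt_iff.1 hy
    have h1 := hR (frontier_subset_closure (h.front hs))
    rw [mem_closedBall, Prod.dist_eq, max_le_iff] at h1
    simpa [Real.dist_eq] using h1.2
  obtain ⟨r₀, hr₀, hn⟩ := sgA_near hy₀
  -- the lower end
  obtain ⟨b, hb0, hb1, hb2⟩ : ∃ b < y₀, (∀ y, b < y → y ≤ y₀ → VertPt D (a, y)) ∧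
      ¬ VertPt D (a, b) := by
    let L : Set ℝ := {t | t < y₀ ∧ ∀ y, t < y → y ≤ y₀ → VertPt D (a, y)}
    have hL0 : y₀ - r₀ / 2 ∈ L := by
      refine ⟨by linarith, fun y h1 h2 => hn y ?_⟩
      rw [abs_lt]
      constructor <;> linarith
    have hbb : BddBelow L := by
      refine ⟨-R, fun t ht => ?_⟩
      by_contra h1
      rw [not_le] at h1
      have h2 := hbd y₀ hy₀
      rw [abs_le] at h2
      have h3 := hbd _ (ht.2 ((t + -R) / 2) (by linarith) (by linarith [ht.1]))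
      rw [abs_le] at h3
      linarith [h3.1]
    have hle : sInf L ≤ y₀ - r₀ / 2 := csInf_le hbb hL0
    have hin : ∀ y, sInf L < y → y ≤ y₀ → VertPt D (a, y) := fun y h1 h2 => by
      obtain ⟨t, ht, h3⟩ := exists_lt_of_csInf_lt ⟨_, hL0⟩ h1
      exact ht.2 y h3 h2
    refine ⟨sInf L, by linarith, hin, fun h1 => ?_⟩
    obtain ⟨r, hr, h2⟩ := sgA_near h1
    have h3 : sInf L - r / 2 ∈ L := by
      refine ⟨by linarith, fun y h4 h5 => ?_⟩
      rcases le_or_gt y (sInf L) with h6 | h6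
      · refine h2 y ?_
        rw [abs_lt]
        constructor <;> linarith
      · exact hin y h6 h5
    linarith [csInf_le hbb h3]
  -- the upper end
  obtain ⟨b', hb0', hb1', hb2'⟩ : ∃ b', y₀ < b' ∧ (∀ y, y₀ ≤ y → y < b' → VertPt D (a, y)) ∧
      ¬ VertPt D (a, b') := by
    let L : Set ℝ := {t | y₀ < t ∧ ∀ y, y₀ ≤ y → y < t → VertPt D (a, y)}
    have hL0 : y₀ + r₀ / 2 ∈ L := by
      refine ⟨by linarith, fun y h1 h2 => hn y ?_⟩
      rw [abs_lt]
      constructor <;> linarith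
    have hbb : BddAbove L := by
      refine ⟨R, fun t ht => ?_⟩
      by_contra h1
      rw [not_le] at h1
      have h2 := hbd y₀ hy₀
      rw [abs_le] at h2
      have h3 := hbd _ (ht.2 ((t + R) / 2) (by linarith [ht.1]) (by linarith))
      rw [abs_le] at h3
      linarith [h3.2]
    have hle : y₀ + r₀ / 2 ≤ sSup L := le_csSup hbb hL0
    have hin : ∀ y, y₀ ≤ y → y < sSup L → VertPt D (a, y) := fun y h1 h2 => by
      obtain ⟨t, ht, h3⟩ := exists_lt_of_lt_csSup ⟨_, hL0⟩ h2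
      exact ht.2 y h1 h3
    refine ⟨sSup L, by linarith, hin, fun h1 => ?_⟩
    obtain ⟨r, hr, h2⟩ := sgA_near h1
    have h3 : sSup L + r / 2 ∈ L := by
      refine ⟨by linarith, fun y h4 h5 => ?_⟩
      rcases lt_or_ge y (sSup L) with h6 | h6
      · exact hin y h4 h6
      · refine h2 y ?_
        rw [abs_lt]
        constructor <;> linarith
    linarith [le_csSup hbb h3]
  refine ⟨b, b', hb0.trans hb0', fun y h1 h2 => ?_, hb2, hb2'⟩
  rcases le_total y y₀ with h3 | h3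
  · exact hb1 y h1 h3
  · exact hb1' y h3 h2

private theorem sgA_open (s : ℝ) : IsOpen {y | VS D s (a, y)} := by
  rw [Metric.isOpen_iff]
  intro y hy
  obtain ⟨r, hr, h⟩ := VS.near hy
  refine ⟨r, hr, fun y' hy' => h y' ?_⟩
  rwa [mem_ball, Real.dist_eq] at hy'

theorem sgn_const {b b' : ℝ} (h : ∀ y, b < y → y < b' → VertPt D (a, y)) :
    ∃ s, Sg s ∧ ∀ y, b < y → y < b' → VS D s (a, y) := by
  have hd : Disjoint {y | VS D 1 (a, y)} {y | VS D (-1) (a, y)} := by
    rw [Set.disjoint_left]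
    intro y h1 h2
    have := VS.sgn_eq (Or.inl rfl) (Or.inr rfl) h1 h2
    norm_num at this
  have hc : Ioo b b' ⊆ {y | VS D 1 (a, y)} ∪ {y | VS D (-1) (a, y)} := by
    intro y hy
    obtain ⟨s, hs, h1⟩ := vertPt_iff.1 (h y hy.1 hy.2)
    rcases hs with rfl | rfl
    · exact Or.inl h1
    · exact Or.inr h1
  rcases IsPreconnected.subset_or_subset (sgA_open 1) (sgA_open (-1)) hd hc
    isPreconnected_Ioo with h1 | h1
  · exact ⟨1, Or.inl rfl, fun y h2 h3 => h1 ⟨h2, h3⟩⟩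
  · exact ⟨-1, Or.inr rfl, fun y h2 h3 => h1 ⟨h2, h3⟩⟩

end

end Pool.Agent.MP4eed4eR.G
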