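import Pool.Agent.Lib.MP_4eed4e_an_RG.GEnds
import Pool.Agent.Lib.MP_4eed4e_an_RG.GTube
import Pool.Agent.Lib.MP_4eed4e_an_RG.GSwap

/-!
MP_4eed4e_an, project R, block G: the widths of the chords.

PROOFS. For `y ∉ YC D` there is no horizontal boundary point at the height `y`, so the ends of the
chord are of the types `VS D 1`, `VS D (-1)` (`left_end`, `right_end`), and `tube_both` gives the
rectangle `(a, c) × (y - ε, y + ε)` (`VS.front`). `vwidth_mem`: the same for `swp D`.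
-/

namespace Pool.Agent.MP4eed4eR.G

open Set Metric MeasureTheory

noncomputable section

variable {D : Set (ℝ × ℝ)} {y a c x : ℝ}

theorem ch_ends (hD : RectDomain D) (h : Ch D y a c) (hy : y ∉ YC D) :
    VS D 1 (a, y) ∧ VS D (-1) (c, y) := by
  exact ⟨left_end hD h fun x' _ hx => hy ⟨x', hx⟩, right_end hD h fun x' _ hx => hy ⟨x', hx⟩⟩

theorem ch_ends_XC (hD : RectDomain D) (h : Ch D y a c) (hy : y ∉ YC D) :
    a ∈ XC D ∧ c ∈ XC D := by
  obtain ⟨h1, h2⟩ := ch_ends hD h hy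
  exact ⟨⟨y, vertPt_iff.2 ⟨1, Or.inl rfl, h1⟩⟩, ⟨y, vertPt_iff.2 ⟨-1, Or.inr rfl, h2⟩⟩⟩

theorem ch_hrect (hD : RectDomain D) (h : Ch D y a c) (hy : y ∉ YC D) :
    ∃ ε > 0, HRect D a (c - a) (y - ε) (y + ε) := by
  obtain ⟨h1, h2⟩ := ch_ends hD h hy
  obtain ⟨ε, hε, H⟩ := tube_both hD.isOpen h h1 h2
  have hac : a + (c - a) = c := by ring
  have habs : ∀ y' ∈ Ioo (y - ε) (y + ε), |y' - y| < ε := by
    intro y' hy'
    rw [abs_sub_lt_iff]
    constructor
    · linarith [hy'.2]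
    · linarith [hy'.1]
  refine ⟨ε, hε, by linarith [h.1], by linarith, ?_, ?_, ?_⟩
  · rintro ⟨x', y'⟩ ⟨hx', hy'⟩
    rw [hac] at hx'
    exact (H y' (habs y' hy')).1.2.1 x' hx'.1 hx'.2
  · intro y' hy'
    exact VS.front (Or.inl rfl) (H y' (habs y' hy')).2.1
  · intro y' hy'
    rw [hac]
    exact VS.front (Or.inr rfl) (H y' (habs y' hy')).2.2

theorem width_mem (hD : RectDomain D) {S : Set ℝ} (hW : Wd D S) (h : Ch D y a c)
    (hy : y ∉ YC D) : c - a ∈ S := by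
  obtain ⟨ε, -, h1⟩ := ch_hrect hD h hy
  exact hW.h _ _ _ _ h1

theorem vwidth_mem (hD : RectDomain D) {S : Set ℝ} (hW : Wd D S) (h : Ch (swp D) x a c)
    (hx : x ∉ XC D) : c - a ∈ S := by
  refine width_mem (rectDomain_swp hD) (wd_swp hW) h ?_
  rw [YC_swp]
  exact hx

end

end Pool.Agent.MP4eed4eR.G
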